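import Mathlib

/-!
Coloured trees in which every node has infinitely many children of every finite colour: maps which
preserve the root, parents and colours are elementary.
-/

set_option autoImplicit false

namespace Pool.Agent.D0H64.EF

open FirstOrder Language

/-- letters: colour, index, and a mark for the children which can have the infinite colour -/
abbrev Lam : Type := ℕ × ℕ × Bool

/-- nodes; the head of the list is the last letter -/
abbrev Node : Type := List Lam

/-- arities: the parent relation, the root, the colours `0, 1, …` -/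
def ar : ℕ → ℕ
  | 0 => 2
  | _ + 1 => 1

/-- every node has infinitely many children of every finite colour -/
def Good (κ : Node → Option ℕ) : Prop := ∀ (s : Node) (n i : ℕ), κ ((n, i, false) :: s) = some n

/-- the colour up to `N` -/
def tr (N : ℕ) (o : Option ℕ) : ℕ := o.elim N fun n => min n N

theorem tr_eq {N n : ℕ} (h : n < N) (o : Option ℕ) : tr N o = n ↔ o = some n := by
  cases o with
  | none => simp [tr]; omega
  | some m => simp only [tr, Option.elim_some, Option.some.injEq]; omega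

theorem tr_le (N : ℕ) (o : Option ℕ) : tr N o ≤ N := by
  cases o with
  | none => simp [tr]
  | some m => simp [tr]

/-- finite partial isomorphisms for the colours up to `N` -/
inductive PI (N : ℕ) (κ κ' : Node → Option ℕ) : Set (Node × Node) → Prop
  | base : PI N κ κ' {([], [])}
  | step (p : Set (Node × Node)) (s t : Node) (l m : Lam) (hp : PI N κ κ' p) (h : (s, t) ∈ p)
      (h1 : ∀ t', (l :: s, t') ∉ p) (h2 : ∀ s', (s', m :: t) ∉ p)
      (hc : tr N (κ (l :: s)) = tr N (κ' (m :: t))) : PI N κ κ' (insert (l :: s, m :: t) p)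

variable {N : ℕ} {κ κ' : Node → Option ℕ} {p : Set (Node × Node)}

theorem PI.swap (h : PI N κ κ' p) : PI N κ' κ (Prod.swap ⁻¹' p) := by
  induction h with
  | base =>
    have : (Prod.swap ⁻¹' {(([] : Node), ([] : Node))} : Set (Node × Node)) = {([], [])} := by
      ext ⟨a, b⟩
      simp [and_comm]
    rw [this]
    exact PI.base
  | step p s t l m hp h h1 h2 hc ih =>
    have : (Prod.swap ⁻¹' insert (l :: s, m :: t) p : Set (Node × Node)) =
        insert (m :: t, l :: s) (Prod.swap ⁻¹' p) := by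
      ext ⟨a, b⟩
      simp [and_comm]
    rw [this]
    exact PI.step _ t s m l ih h h2 h1 hc.symm

theorem PI.finite (h : PI N κ κ' p) : p.Finite := by
  induction h with
  | base => exact Set.finite_singleton _
  | step p s t l m hp h h1 h2 hc ih => exact ih.insert _

theorem PI.fn (h : PI N κ κ' p) : ∀ s t t', (s, t) ∈ p → (s, t') ∈ p → t = t' := by
  induction h with
  | base => intro s t t' h h'; simp at h h'; rw [h.2, h'.2]
  | step p s t l m hp h h1 h2 hc ih =>
    intro a b b' hb hb'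
    rcases hb with hb | hb <;> rcases hb' with hb' | hb'
    · rw [(Prod.mk.inj hb).2, (Prod.mk.inj hb').2]
    · rw [(Prod.mk.inj hb).1] at hb'; exact absurd hb' (h1 _)
    · rw [(Prod.mk.inj hb').1] at hb; exact absurd hb (h1 _)
    · exact ih _ _ _ hb hb'

theorem PI.inj (h : PI N κ κ' p) (s s' t : Node) (h1 : (s, t) ∈ p) (h2 : (s', t) ∈ p) : s = s' :=
  h.swap.fn t s s' h1 h2

theorem PI.par (h : PI N κ κ' p) : ∀ (s : Node) (l : Lam) t', (l :: s, t') ∈ p →
    ∃ t m, t' = m :: t ∧ (s, t) ∈ p := by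
  induction h with
  | base => intro s l t' h; simp at h
  | step p s t l m hp h h1 h2 hc ih =>
    intro a b c hc'
    rcases hc' with hc' | hc'
    · obtain ⟨h3, h4⟩ := Prod.mk.inj hc'
      obtain ⟨rfl, rfl⟩ := List.cons.inj h3
      exact ⟨t, m, h4, Or.inr h⟩
    · obtain ⟨t2, m2, h3, h4⟩ := ih _ _ _ hc'
      exact ⟨t2, m2, h3, Or.inr h4⟩

theorem PI.root (h : PI N κ κ' p) : ([], []) ∈ p := by
  induction h with
  | base => simp
  | step p s t l m hp h h1 h2 hc ih => exact Or.inr ih

theorem PI.nil_iff (h : PI N κ κ' p) {s t : Node} (hst : (s, t) ∈ p) : s = [] ↔ t = [] := by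
  constructor
  · rintro rfl; exact h.fn _ _ _ hst h.root
  · rintro rfl; exact h.inj _ _ _ hst h.root

theorem PI.parent_iff (h : PI N κ κ' p) {s t s' t' : Node} (hst : (s, t) ∈ p)
    (hst' : (s', t') ∈ p) : (∃ l, s' = l :: s) ↔ ∃ m, t' = m :: t := by
  constructor
  · rintro ⟨l, rfl⟩
    obtain ⟨t2, m, rfl, h2⟩ := h.par _ _ _ hst'
    rw [h.fn _ _ _ hst h2]
    exact ⟨m, rfl⟩
  · rintro ⟨m, rfl⟩
    obtain ⟨s2, l, rfl, h2⟩ := h.swap.par _ _ _ (show (m :: t, s') ∈ Prod.swap ⁻¹' p from hst')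
    rw [h.inj _ _ _ hst h2]
    exact ⟨l, rfl⟩

theorem PI.col (h : PI N κ κ' p) (hroot : tr N (κ []) = tr N (κ' [])) :
    ∀ s t, (s, t) ∈ p → tr N (κ s) = tr N (κ' t) := by
  induction h with
  | base => intro s t h; simp at h; rw [h.1, h.2]; exact hroot
  | step p s t l m hp h h1 h2 hc ih =>
    intro a b hb
    rcases hb with hb | hb
    · rw [(Prod.mk.inj hb).1, (Prod.mk.inj hb).2]; exact hc
    · exact ih _ _ hb

theorem PI.forth (hκ' : Good κ') (h : PI N κ κ' p) (s : Node) :
    ∃ q, PI N κ κ' q ∧ p ⊆ q ∧ ∃ t, (s, t) ∈ q := by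
  induction s with
  | nil => exact ⟨p, h, subset_rfl, [], h.root⟩
  | cons l s ih =>
    obtain ⟨q, hq, hpq, t, ht⟩ := ih
    by_cases hs : ∃ t', (l :: s, t') ∈ q
    · exact ⟨q, hq, hpq, hs⟩
    · push Not at hs
      obtain ⟨i, hi⟩ : ∃ i : ℕ, ∀ s', (s', (tr N (κ (l :: s)), i, false) :: t) ∉ q := by
        by_contra hc
        push Not at hc
        choose g hg using hc
        have hinj : Function.Injective fun i : ℕ =>
            (g i, ((tr N (κ (l :: s)), i, false) :: t : Node)) := by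
          intro i j hij
          have := (List.cons.inj (Prod.mk.inj hij).2).1
          exact (Prod.mk.inj (Prod.mk.inj this).2).1
        exact Set.infinite_of_injective_forall_mem hinj hg hq.finite
      refine ⟨_, PI.step q s t l (tr N (κ (l :: s)), i, false) hq ht hs hi ?_,
        hpq.trans (Set.subset_insert _ _), _, Set.mem_insert _ _⟩
      rw [hκ' t]
      have := tr_le N (κ (l :: s))
      simp only [tr, Option.elim_some]
      exact (min_eq_left this).symm

theorem PI.back (hκ : Good κ) (h : PI N κ κ' p) (t : Node) :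
    ∃ q, PI N κ κ' q ∧ p ⊆ q ∧ ∃ s, (s, t) ∈ q := by
  obtain ⟨q, h1, h2, s, h3⟩ := h.swap.forth hκ t
  exact ⟨Prod.swap ⁻¹' q, h1.swap, fun x hx => h2 (by simpa using hx), s, h3⟩

/-- a map of trees preserving the root, parents and colours -/
structure IsEmb (κ κ' : Node → Option ℕ) (F : Node → Node) : Prop where
  nil : F [] = []
  cons : ∀ l s, ∃ m, F (l :: s) = m :: F s
  inj : Function.Injective F
  col : ∀ s, κ' (F s) = κ s

theorem IsEmb.ext {F : Node → Node} (hF : IsEmb κ κ' F) (h : PI N κ κ' p)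
    (hp : ∀ s t, (s, t) ∈ p → t = F s) (s : Node) :
    ∃ q, PI N κ κ' q ∧ p ⊆ q ∧ (∀ s t, (s, t) ∈ q → t = F s) ∧ (s, F s) ∈ q := by
  induction s with
  | nil => exact ⟨p, h, subset_rfl, hp, by rw [hF.nil]; exact h.root⟩
  | cons l s ih =>
    obtain ⟨q, hq, hpq, hqF, hs⟩ := ih
    by_cases hm : (l :: s, F (l :: s)) ∈ q
    · exact ⟨q, hq, hpq, hqF, hm⟩
    obtain ⟨m, hm'⟩ := hF.cons l s
    refine ⟨insert (l :: s, m :: F s) q, PI.step q s (F s) l m hq hs ?_ ?_ ?_,
      hpq.trans (Set.subset_insert _ _), ?_, ?_⟩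
    · intro t' ht'
      rw [hqF _ _ ht'] at ht'
      exact hm ht'
    · intro s' hs'
      have h1 := hqF _ _ hs'
      rw [← hm'] at h1 hs'
      rw [← hF.inj h1] at hs'
      exact hm hs'
    · rw [← hm', hF.col]
    · rintro a b (hab | hab)
      · rw [(Prod.mk.inj hab).1, (Prod.mk.inj hab).2, hm']
      · exact hqF _ _ hab
    · rw [hm']; exact Set.mem_insert _ _

theorem IsEmb.exists_pi {F : Node → Node} (hF : IsEmb κ κ' F) (N : ℕ) (l : List Node) :
    ∃ q, PI N κ κ' q ∧ (∀ s t, (s, t) ∈ q → t = F s) ∧ ∀ s ∈ l, (s, F s) ∈ q := by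
  induction l with
  | nil =>
    refine ⟨_, PI.base, fun s t h => ?_, fun s hs => absurd hs List.not_mem_nil⟩
    simp at h
    rw [h.1, h.2, hF.nil]
  | cons a l ih =>
    obtain ⟨q, hq, h1, h2⟩ := ih
    obtain ⟨q', hq', h3, h4, h5⟩ := hF.ext hq h1 a
    refine ⟨q', hq', h4, fun s hs => ?_⟩
    rcases List.mem_cons.1 hs with rfl | hs
    · exact h5
    · exact h3 (h2 s hs)

/-! ### Structures -/

/-- the language with relation symbols of the arities `a i` -/
abbrev LL (a : ℕ → ℕ) : FirstOrder.Language.{0, 0} :=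
  FirstOrder.Language.mk (fun _ => PEmpty.{1}) (fun n => {i : ℕ // a i = n})

/-- the structure given by `u` -/
@[reducible] def stc {a : ℕ → ℕ} (u : ∀ i : ℕ, (Fin (a i) → ℕ) → Bool) : (LL a).Structure ℕ :=
  @FirstOrder.Language.Structure.mk (LL a) ℕ (fun f _ => PEmpty.elim f)
    (fun r xs => u (Subtype.val r) (xs ∘ Fin.cast (Subtype.property r)) = true)

open Classical in
/-- the structure of a coloured tree, transferred to `ℕ` -/
noncomputable def str (e : ℕ ≃ Node) (κ : Node → Option ℕ) : ∀ i : ℕ, (Fin (ar i) → ℕ) → Bool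
  | 0 => fun v => decide (∃ l, e (v ⟨1, Nat.lt_succ_self 1⟩) = l :: e (v ⟨0, Nat.succ_pos 1⟩))
  | 1 => fun v => decide (e (v ⟨0, Nat.lt_succ_self 0⟩) = [])
  | n + 2 => fun v => decide (κ (e (v ⟨0, Nat.lt_succ_self 0⟩)) = some n)

theorem term_var {α : Type} {a : ℕ → ℕ} (t : (LL a).Term α) : ∃ x, t = Term.var x := by
  cases t with
  | var x => exact ⟨x, rfl⟩
  | func f ts => exact PEmpty.elim f

theorem realize_iff (e : ℕ ≃ Node) {κ κ' : Node → Option ℕ} (hκ : Good κ) (hκ' : Good κ')
    (hroot : κ [] = κ' []) {α : Type} {n : ℕ} (φ : (LL ar).BoundedFormula α n) :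
    ∃ N₀, ∀ N ≥ N₀, ∀ p, PI N κ κ' p → ∀ (v w : α → ℕ) (xs ys : Fin n → ℕ),
      (∀ i, (e (v i), e (w i)) ∈ p) → (∀ i, (e (xs i), e (ys i)) ∈ p) →
      (@BoundedFormula.Realize (LL ar) ℕ (stc (str e κ)) α n φ v xs ↔
        @BoundedFormula.Realize (LL ar) ℕ (stc (str e κ')) α n φ w ys) := by
  induction φ with
  | falsum => exact ⟨0, fun N _ p _ v w xs ys _ _ => Iff.rfl⟩
  | equal t₁ t₂ =>
    obtain ⟨x₁, rfl⟩ := term_var t₁
    obtain ⟨x₂, rfl⟩ := term_var t₂
    refine ⟨0, fun N _ p hp v w xs ys h1 h2 => ?_⟩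
    have key : ∀ x, (e (Sum.elim v xs x), e (Sum.elim w ys x)) ∈ p := by
      rintro (x | x)
      · exact h1 x
      · exact h2 x
    show Sum.elim v xs x₁ = Sum.elim v xs x₂ ↔ Sum.elim w ys x₁ = Sum.elim w ys x₂
    constructor
    · intro h
      refine e.injective (hp.fn _ _ _ (key x₁) ?_)
      rw [h]; exact key x₂
    · intro h
      refine e.injective (hp.inj _ _ _ (key x₁) ?_)
      rw [h]; exact key x₂
  | @rel k l r ts =>
    obtain ⟨i, rfl⟩ := r
    choose x hx using fun j => term_var (ts j)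
    obtain rfl : ts = fun j => Term.var (x j) := funext hx
    match i with
    | 0 =>
      refine ⟨0, fun N _ p hp v w xs ys h1 h2 => ?_⟩
      have key : ∀ x, (e (Sum.elim v xs x), e (Sum.elim w ys x)) ∈ p := by
        rintro (x | x)
        · exact h1 x
        · exact h2 x
      have h3 := hp.parent_iff (key (x ⟨0, Nat.succ_pos 1⟩)) (key (x ⟨1, Nat.lt_succ_self 1⟩))
      exact Iff.trans (@decide_eq_true_iff _ (Classical.propDecidable _))
        (Iff.trans h3 (@decide_eq_true_iff _ (Classical.propDecidable _)).symm)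
    | 1 =>
      refine ⟨0, fun N _ p hp v w xs ys h1 h2 => ?_⟩
      have key : ∀ x, (e (Sum.elim v xs x), e (Sum.elim w ys x)) ∈ p := by
        rintro (x | x)
        · exact h1 x
        · exact h2 x
      have h3 := hp.nil_iff (key (x ⟨0, Nat.lt_succ_self 0⟩))
      show decide _ = true ↔ decide _ = true
      rw [decide_eq_true_iff, decide_eq_true_iff]
      exact h3
    | c + 2 =>
      refine ⟨c + 1, fun N hN p hp v w xs ys h1 h2 => ?_⟩
      have key : ∀ x, (e (Sum.elim v xs x), e (Sum.elim w ys x)) ∈ p := by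
        rintro (x | x)
        · exact h1 x
        · exact h2 x
      have h3 := hp.col (by rw [hroot]) _ _ (key (x ⟨0, Nat.lt_succ_self 0⟩))
      have h4 := tr_eq (show c < N by omega) (κ (e (Sum.elim v xs (x ⟨0, Nat.lt_succ_self 0⟩))))
      have h5 := tr_eq (show c < N by omega) (κ' (e (Sum.elim w ys (x ⟨0, Nat.lt_succ_self 0⟩))))
      show decide _ = true ↔ decide _ = true
      rw [decide_eq_true_iff, decide_eq_true_iff]
      refine Iff.trans h4.symm (Iff.trans ?_ h5)
      rw [h3]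
  | imp f₁ f₂ ih1 ih2 =>
    obtain ⟨N1, h1⟩ := ih1
    obtain ⟨N2, h2⟩ := ih2
    refine ⟨max N1 N2, fun N hN p hp v w xs ys h3 h4 => ?_⟩
    have e1 := h1 N (le_trans (le_max_left _ _) hN) p hp v w xs ys h3 h4
    have e2 := h2 N (le_trans (le_max_right _ _) hN) p hp v w xs ys h3 h4
    rw [@BoundedFormula.realize_imp (LL ar) ℕ (stc (str e κ)),
      @BoundedFormula.realize_imp (LL ar) ℕ (stc (str e κ')), e1, e2]
  | all f ih =>
    obtain ⟨N1, h1⟩ := ih
    refine ⟨N1, fun N hN p hp v w xs ys h3 h4 => ?_⟩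
    rw [@BoundedFormula.realize_all (LL ar) ℕ (stc (str e κ)),
      @BoundedFormula.realize_all (LL ar) ℕ (stc (str e κ'))]
    constructor
    · intro H b
      obtain ⟨q, hq, hpq, s, hs⟩ := hp.back hκ (e b)
      have hs' : (e (e.symm s), e b) ∈ q := by simpa using hs
      refine (h1 N hN q hq v w (Fin.snoc xs (e.symm s)) (Fin.snoc ys b)
        (fun i => hpq (h3 i)) fun i => ?_).1 (H (e.symm s))
      refine Fin.lastCases ?_ (fun i => ?_) i
      · rw [Fin.snoc_last, Fin.snoc_last]; exact hs'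
      · rw [Fin.snoc_castSucc, Fin.snoc_castSucc]; exact hpq (h4 i)
    · intro H b
      obtain ⟨q, hq, hpq, s, hs⟩ := hp.forth hκ' (e b)
      have hs' : (e b, e (e.symm s)) ∈ q := by simpa using hs
      refine (h1 N hN q hq v w (Fin.snoc xs b) (Fin.snoc ys (e.symm s))
        (fun i => hpq (h3 i)) fun i => ?_).2 (H (e.symm s))
      refine Fin.lastCases ?_ (fun i => ?_) i
      · rw [Fin.snoc_last, Fin.snoc_last]; exact hs'
      · rw [Fin.snoc_castSucc, Fin.snoc_castSucc]; exact hpq (h4 i)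

theorem elementary (e : ℕ ≃ Node) {κ κ' : Node → Option ℕ} (hκ : Good κ) (hκ' : Good κ')
    (hroot : κ [] = κ' []) {F : Node → Node} (hF : IsEmb κ κ' F) :
    Nonempty (@FirstOrder.Language.ElementaryEmbedding (LL ar) ℕ ℕ (stc (str e κ))
      (stc (str e κ'))) := by
  refine ⟨@FirstOrder.Language.ElementaryEmbedding.mk (LL ar) ℕ ℕ (stc (str e κ))
      (stc (str e κ')) (fun a => e.symm (F (e a))) ?_⟩
  intro n φ x
  obtain ⟨N, hN⟩ := realize_iff e hκ hκ' hroot φ
  obtain ⟨q, hq, -, h2⟩ := hF.exists_pi N (List.ofFn fun i => e (x i))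
  have h4 := hN N le_rfl q hq x (fun i => e.symm (F (e (x i)))) default default (fun i => by
    have h3 := h2 (e (x i)) (by simp)
    simpa using h3) fun i => Fin.elim0 i
  unfold FirstOrder.Language.Formula.Realize
  convert h4.symm
  rfl

end Pool.Agent.D0H64.EF
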