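import Pool.Agent.D0H64.EF

/-!
The coloured trees coding the points of Cantor space.
-/

set_option autoImplicit false

namespace Pool.Agent.D0H64.Tree

open Pool.Agent.D0H64.EF

variable (P : ℕ → (ℕ → Bool) → (ℕ → Bool) → (ℕ → ℕ) → Prop)

/-- the indices along a node -/
def sq : Node → ℕ → ℕ
  | [] => fun _ => 0
  | l :: s => fun i => if i = s.length then l.2.1 else sq s i

/-- the nodes of the tree of finite sequences of natural numbers -/
def real : Node → Prop
  | [] => True
  | l :: s => real s ∧ l.1 = 0 ∧ l.2.2 = false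

/-- labels: the root is labelled by `c`, the other nodes by their last letters -/
def Df (c : ℕ → Bool) : Node → ℕ → Prop
  | [] => fun j => c j = true
  | l :: _ => fun j => j = Encodable.encode l

/-- nodes which have children of infinite colour -/
def rich (c : ℕ → Bool) : Node → Prop
  | [] => True
  | l :: s => (l.2.2 = true ∧ rich c s) ∨ l.1 = 0 ∨
      (l.1 % 2 = 1 ∧ (real s → P s.length (fun i => Nat.testBit (l.1 / 2) i) c (sq s))) ∨
      (l.1 % 2 = 0 ∧ l.1 ≠ 0 ∧ ¬ (Df c s (l.1 / 2 - 1) ∧ l.2.1 = 0 ∧ l.2.2 = false))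

open Classical in
/-- the colours -/
noncomputable def col (c : ℕ → Bool) : Node → Option ℕ
  | [] => some 0
  | l :: s => if l.2.2 = true ∧ rich P c s then none else some l.1

variable {P} {c c' : ℕ → Bool}

theorem good_col : Good (col P c) := by
  intro s n i
  simp [col]

theorem col_none {l : Lam} {s : Node} : col P c (l :: s) = none ↔ l.2.2 = true ∧ rich P c s := by
  simp only [col]
  split_ifs with h <;> simp [h]

theorem col_some {l : Lam} {s : Node} {n : ℕ} :
    col P c (l :: s) = some n ↔ ¬ (l.2.2 = true ∧ rich P c s) ∧ l.1 = n := by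
  simp only [col]
  split_ifs with h
  · simp [h]
  · simp only [Option.some.injEq]
    exact ⟨fun h' => ⟨h, h'⟩, fun h' => h'.2⟩

theorem rich_iff {s : Node} : rich P c s ↔ ∃ l, col P c (l :: s) = none :=
  ⟨fun h => ⟨(0, 0, true), col_none.2 ⟨rfl, h⟩⟩, fun ⟨_, hl⟩ => (col_none.1 hl).2⟩

theorem rich_of_real {s : Node} (h : real s) : rich P c s := by
  cases s with
  | nil => trivial
  | cons l s => exact Or.inr (Or.inl h.2.1)

/-! ### From the relation to embeddings -/

open Classical in
/-- the letter used by the embedding -/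
noncomputable def lt (P : ℕ → (ℕ → Bool) → (ℕ → Bool) → (ℕ → ℕ) → Prop) (c : ℕ → Bool) (z : ℕ → ℕ)
    (l : Lam) (s : Node) : Lam :=
  if l.2.2 = true ∧ rich P c s then (l.1, l.2.1, true)
  else if l.1 = 0 ∧ real s then (0, l.2.1 + z s.length, false)
  else (l.1, 2 * l.2.1 + l.2.2.toNat + 1, false)

theorem lt_cases (P : ℕ → (ℕ → Bool) → (ℕ → Bool) → (ℕ → ℕ) → Prop) (c : ℕ → Bool) (z : ℕ → ℕ)
    (l : Lam) (s : Node) :
    ((l.2.2 = true ∧ rich P c s) ∧ lt P c z l s = (l.1, l.2.1, true)) ∨
    (¬ (l.2.2 = true ∧ rich P c s) ∧ (l.1 = 0 ∧ real s) ∧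
      lt P c z l s = (0, l.2.1 + z s.length, false)) ∨
    (¬ (l.2.2 = true ∧ rich P c s) ∧ ¬ (l.1 = 0 ∧ real s) ∧
      lt P c z l s = (l.1, 2 * l.2.1 + l.2.2.toNat + 1, false)) := by
  unfold lt
  by_cases h1 : l.2.2 = true ∧ rich P c s
  · exact Or.inl ⟨h1, if_pos h1⟩
  · by_cases h2 : l.1 = 0 ∧ real s
    · exact Or.inr (Or.inl ⟨h1, h2, by rw [if_neg h1, if_pos h2]⟩)
    · exact Or.inr (Or.inr ⟨h1, h2, by rw [if_neg h1, if_neg h2]⟩)

/-- the embedding -/
noncomputable def FF (P : ℕ → (ℕ → Bool) → (ℕ → Bool) → (ℕ → ℕ) → Prop) (c : ℕ → Bool)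
    (z : ℕ → ℕ) : Node → Node
  | [] => []
  | l :: s => lt P c z l s :: FF P c z s

theorem FF_cons (P : ℕ → (ℕ → Bool) → (ℕ → Bool) → (ℕ → ℕ) → Prop) (c : ℕ → Bool)
    (z : ℕ → ℕ) (l : Lam) (s : Node) : FF P c z (l :: s) = lt P c z l s :: FF P c z s := rfl

theorem length_FF (z : ℕ → ℕ) (s : Node) : (FF P c z s).length = s.length := by
  induction s with
  | nil => rfl
  | cons l s ih => rw [FF_cons, List.length_cons, List.length_cons, ih]

theorem real_FF (z : ℕ → ℕ) (s : Node) : real (FF P c z s) ↔ real s := by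
  induction s with
  | nil => exact Iff.rfl
  | cons l s ih =>
    rw [FF_cons]
    show (real (FF P c z s) ∧ (lt P c z l s).1 = 0 ∧ (lt P c z l s).2.2 = false) ↔
      (real s ∧ l.1 = 0 ∧ l.2.2 = false)
    rw [ih]
    rcases lt_cases P c z l s with ⟨h1, h2⟩ | ⟨h1, h2, h3⟩ | ⟨h1, h2, h3⟩
    · simp [h2, h1.1]
    · rw [h3]
      have h4 : l.2.2 = false := by
        cases h5 : l.2.2
        · rfl
        · exact absurd ⟨h5, rich_of_real h2.2⟩ h1
      simp [h2.1, h2.2, h4]
    · rw [h3]
      constructor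
      · rintro ⟨h4, h5, -⟩; exact absurd ⟨h5, h4⟩ h2
      · rintro ⟨h4, h5, -⟩; exact absurd ⟨h5, h4⟩ h2

theorem sq_FF (z : ℕ → ℕ) (s : Node) (hs : real s) :
    ∀ i < s.length, sq (FF P c z s) i = sq s i + z i := by
  induction s with
  | nil => intro i hi; simp at hi
  | cons l s ih =>
    intro i hi
    rw [FF_cons]
    show (if i = (FF P c z s).length then (lt P c z l s).2.1 else sq (FF P c z s) i) =
      (if i = s.length then l.2.1 else sq s i) + z i
    rw [length_FF]
    by_cases h : i = s.length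
    · rw [if_pos h, if_pos h]
      rcases lt_cases P c z l s with ⟨h1, h2⟩ | ⟨h1, h2, h3⟩ | ⟨h1, h2, h3⟩
      · rw [hs.2.2] at h1
        exact absurd h1.1 (by simp)
      · rw [h3, h]
      · exact absurd ⟨hs.2.1, hs.1⟩ h2
    · rw [if_neg h, if_neg h]
      refine ih hs.1 i ?_
      rw [List.length_cons] at hi
      omega

/-- the properties of the tree of Louveau and Rosendal -/
structure Tr (P : ℕ → (ℕ → Bool) → (ℕ → Bool) → (ℕ → ℕ) → Prop) : Prop where
  congr : ∀ n a b a' b' z z', P n a b z → (∀ i < n, a i = a' i) → (∀ i < n, b i = b' i) →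
    (∀ i < n, z i = z' i) → P n a' b' z'
  refl : ∀ n a z, P n a a z
  trans : ∀ n a b c z z', P n a b z → P n b c z' → P n a c (fun j => z j + z' j)

theorem rich_FF (hP : Tr P) {z : ℕ → ℕ} (hz : ∀ n, P n c c' z) (s : Node) (h : rich P c s) :
    rich P c' (FF P c z s) := by
  induction s with
  | nil => trivial
  | cons l s ih =>
    rw [FF_cons]
    rcases lt_cases P c z l s with ⟨h1, h2⟩ | ⟨h1, h2, h3⟩ | ⟨h1, h2, h3⟩
    · rw [h2]
      exact Or.inl ⟨rfl, ih h1.2⟩
    · rw [h3]
      exact Or.inr (Or.inl rfl)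
    · rw [h3]
      rcases h with h | h | ⟨h4, h5⟩ | ⟨h4, h5, h6⟩
      · exact absurd h h1
      · exact Or.inr (Or.inl h)
      · refine Or.inr (Or.inr (Or.inl ⟨h4, fun h7 => ?_⟩))
        rw [real_FF] at h7
        have h8 := hP.trans _ _ _ _ _ _ (h5 h7) (hz s.length)
        rw [length_FF]
        exact hP.congr _ _ _ _ _ _ _ h8 (fun _ _ => rfl) (fun _ _ => rfl)
          fun i hi => (sq_FF z s h7 i hi).symm
      · refine Or.inr (Or.inr (Or.inr ⟨h4, h5, fun h7 => ?_⟩))
        exact absurd h7.2.1 (Nat.succ_ne_zero _)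

theorem inj_FF (z : ℕ → ℕ) : Function.Injective (FF P c z) := by
  intro s
  induction s with
  | nil =>
    intro t ht
    cases t with
    | nil => rfl
    | cons m t => rw [FF_cons] at ht; exact absurd ht (by simp [FF])
  | cons l s ih =>
    intro t ht
    cases t with
    | nil => rw [FF_cons] at ht; exact absurd ht (by simp [FF])
    | cons m t =>
      rw [FF_cons, FF_cons] at ht
      obtain ⟨h1, h2⟩ := List.cons.inj ht
      have h3 := ih h2
      subst h3
      congr 1
      obtain ⟨l1, l2, l3⟩ := l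
      obtain ⟨m1, m2, m3⟩ := m
      have hf : ∀ b : Bool, ¬ (b = true ∧ rich P c s) → real s → b = false := by
        intro b hb hr
        cases b
        · rfl
        · exact absurd ⟨rfl, rich_of_real hr⟩ hb
      rcases lt_cases P c z (l1, l2, l3) s with ⟨a1, a2⟩ | ⟨a1, a2, a3⟩ | ⟨a1, a2, a3⟩ <;>
        rcases lt_cases P c z (m1, m2, m3) s with ⟨b1, b2⟩ | ⟨b1, b2, b3⟩ | ⟨b1, b2, b3⟩
      · rw [a2, b2] at h1
        simp only [Prod.mk.injEq, and_true] at h1
        have a3 : l3 = true := a1.1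
        have b3 : m3 = true := b1.1
        rw [a3, b3, h1.1, h1.2]
      · rw [a2, b3] at h1; simp at h1
      · rw [a2, b3] at h1; simp at h1
      · rw [a3, b2] at h1; simp at h1
      · rw [a3, b3] at h1
        simp only [Prod.mk.injEq, and_true, true_and] at h1
        simp only at a2 b2
        simp only [Prod.mk.injEq]
        exact ⟨a2.1.trans b2.1.symm, by omega, (hf l3 a1 a2.2).trans (hf m3 b1 b2.2).symm⟩
      · rw [a3, b3] at h1
        simp only [Prod.mk.injEq] at h1
        exact absurd ⟨h1.1.symm, a2.2⟩ b2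
      · rw [a3, b2] at h1; simp at h1
      · rw [a3, b3] at h1
        simp only [Prod.mk.injEq] at h1
        exact absurd ⟨h1.1, b2.2⟩ a2
      · rw [a3, b3] at h1
        simp only [Prod.mk.injEq, and_true] at h1
        obtain ⟨h4, h5⟩ := h1
        cases l3 <;> cases m3 <;> simp only [Bool.toNat_true, Bool.toNat_false] at h5 <;>
          simp only [Prod.mk.injEq, h4, true_and, and_true] <;> omega

theorem exists_emb (hP : Tr P) {z : ℕ → ℕ} (hz : ∀ n, P n c c' z) :
    IsEmb (col P c) (col P c') (FF P c z) := by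
  refine ⟨rfl, fun l s => ⟨_, rfl⟩, inj_FF z, fun s => ?_⟩
  cases s with
  | nil => rfl
  | cons l s =>
    rw [FF_cons]
    rcases lt_cases P c z l s with ⟨h1, h2⟩ | ⟨h1, h2, h3⟩ | ⟨h1, h2, h3⟩
    · rw [col_none.2 h1, col_none, h2]
      exact ⟨rfl, rich_FF hP hz s h1.2⟩
    · rw [col_some.2 ⟨h1, rfl⟩, col_some, h3]
      exact ⟨by simp, h2.1.symm⟩
    · rw [col_some.2 ⟨h1, rfl⟩, col_some, h3]
      exact ⟨by simp, rfl⟩

/-! ### From embeddings to the relation -/

/-- the leftmost branch of the tree of finite sequences -/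
def br (n : ℕ) : Node := List.replicate n (0, 0, false)

theorem br_succ (n : ℕ) : br (n + 1) = (0, 0, false) :: br n := rfl

theorem real_br (n : ℕ) : real (br n) := by
  induction n with
  | zero => trivial
  | succ n ih => exact ⟨ih, rfl, rfl⟩

theorem exists_bits (n : ℕ) (c : ℕ → Bool) : ∃ j : ℕ, ∀ i < n, Nat.testBit j i = c i := by
  refine ⟨Nat.ofBits (fun i : Fin n => c i), fun i hi => ?_⟩
  rw [Nat.testBit_ofBits_lt _ _ hi]

theorem of_emb (hP : Tr P) {F : Node → Node} (h0 : F [] = [])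
    (h1 : ∀ l s, ∃ m, F (l :: s) = m :: F s) (h2 : ∀ s, col P c' (F s) = col P c s) :
    ∃ z, ∀ n, P n c c' z := by
  have hl : ∀ s, (F s).length = s.length := by
    intro s
    induction s with
    | nil => rw [h0]
    | cons l s ih =>
      obtain ⟨m, hm⟩ := h1 l s
      rw [hm, List.length_cons, List.length_cons, ih]
  have hr : ∀ n, real (F (br n)) := by
    intro n
    induction n with
    | zero => show real (F []); rw [h0]; trivial
    | succ n ih =>
      obtain ⟨m, hm⟩ := h1 (0, 0, false) (br n)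
      rw [br_succ, hm]
      have h3 := h2 ((0, 0, false) :: br n)
      rw [hm, good_col, col_some] at h3
      refine ⟨ih, h3.2, ?_⟩
      cases h5 : m.2.2
      · rfl
      · exact absurd ⟨h5, rich_of_real ih⟩ h3.1
  let z : ℕ → ℕ := fun i => sq (F (br (i + 1))) i
  have hz : ∀ n, ∀ i < n, sq (F (br n)) i = z i := by
    intro n
    induction n with
    | zero => intro i hi; omega
    | succ n ih =>
      intro i hi
      by_cases h : i = n
      · subst h; rfl
      · obtain ⟨m, hm⟩ := h1 (0, 0, false) (br n)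
        rw [br_succ, hm]
        show (if i = (F (br n)).length then m.2.1 else sq (F (br n)) i) = z i
        rw [hl, if_neg (by simpa [br] using h)]
        exact ih i (by omega)
  refine ⟨z, fun n => ?_⟩
  obtain ⟨j, hj⟩ := exists_bits n c
  have h3 : rich P c ((2 * j + 1, 0, false) :: br n) := by
    refine Or.inr (Or.inr (Or.inl ⟨?_, fun _ => ?_⟩))
    · show (2 * j + 1) % 2 = 1
      omega
    · refine hP.congr _ c c _ _ (sq (br n)) _ (hP.refl _ _ _) (fun i hi => ?_) (fun _ _ => rfl)
        (fun _ _ => rfl)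
      show c i = Nat.testBit ((2 * j + 1) / 2) i
      have h4 : (2 * j + 1) / 2 = j := by omega
      rw [h4, hj i (by simpa [br] using hi)]
  have h4 : col P c ((0, 0, true) :: (2 * j + 1, 0, false) :: br n) = none := col_none.2 ⟨rfl, h3⟩
  obtain ⟨m', hm'⟩ := h1 (0, 0, true) ((2 * j + 1, 0, false) :: br n)
  obtain ⟨m, hm⟩ := h1 (2 * j + 1, 0, false) (br n)
  rw [← h2, hm', hm, col_none] at h4
  have h5 := h2 ((2 * j + 1, 0, false) :: br n)
  rw [hm, good_col, col_some] at h5
  obtain ⟨h6, h7⟩ := h5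
  rcases h4.2 with h | h | ⟨h8, h9⟩ | ⟨h8, h9, h10⟩
  · exact absurd h h6
  · omega
  · have h10 := h9 (hr n)
    rw [hl] at h10
    have h11 : (br n).length = n := by simp [br]
    rw [h11] at h10
    refine hP.congr _ _ _ _ _ _ _ h10 (fun i hi => ?_) (fun _ _ => rfl) (hz n)
    have h12 : m.1 / 2 = j := by omega
    show Nat.testBit (m.1 / 2) i = c i
    rw [h12, hj i hi]
  · omega

/-! ### Rigidity -/

theorem Df_iff {s : Node} {j : ℕ} :
    Df c s j ↔ ∃ l, col P c (l :: s) = some (2 * j + 2) ∧ ¬ rich P c (l :: s) := by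
  constructor
  · intro h
    refine ⟨(2 * j + 2, 0, false), good_col _ _ _, ?_⟩
    rintro (h1 | h1 | h1 | h1)
    · exact absurd h1.1 (by simp)
    · exact absurd h1 (Nat.succ_ne_zero _)
    · have h2 : (2 * j + 2) % 2 = 1 := h1.1
      omega
    · refine h1.2.2 ⟨?_, rfl, rfl⟩
      have h2 : (2 * j + 2) / 2 - 1 = j := by omega
      show Df c s ((2 * j + 2) / 2 - 1)
      rw [h2]; exact h
  · rintro ⟨l, h1, h2⟩
    rw [col_some] at h1
    by_contra hc
    refine h2 (Or.inr (Or.inr (Or.inr ⟨by rw [h1.2]; omega, by rw [h1.2]; omega, fun h3 => hc ?_⟩)))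
    have h4 : l.1 / 2 - 1 = j := by rw [h1.2]; omega
    rw [← h4]
    exact h3.1

theorem rigid {F : Node → Node} (hF : Function.Bijective F) (h0 : F [] = [])
    (h1 : ∀ s t, (∃ l, t = l :: s) ↔ ∃ m, F t = m :: F s) (h2 : ∀ s, col P c' (F s) = col P c s) :
    c = c' ∧ ∀ s, F s = s := by
  have hch : ∀ l s, ∃ m, F (l :: s) = m :: F s := fun l s => (h1 s (l :: s)).1 ⟨l, rfl⟩
  have hpr : ∀ m s, ∃ l, F (l :: s) = m :: F s := by
    intro m s
    obtain ⟨t, ht⟩ := hF.2 (m :: F s)
    obtain ⟨l, rfl⟩ := (h1 s t).2 ⟨m, ht⟩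
    exact ⟨l, ht⟩
  have hrich : ∀ s, rich P c s ↔ rich P c' (F s) := by
    intro s
    rw [rich_iff, rich_iff]
    constructor
    · rintro ⟨l, hl⟩
      obtain ⟨m, hm⟩ := hch l s
      exact ⟨m, by rw [← hm, h2, hl]⟩
    · rintro ⟨m, hm⟩
      obtain ⟨l, hl⟩ := hpr m s
      exact ⟨l, by rw [← h2, hl, hm]⟩
  have hDf : ∀ s j, Df c s j ↔ Df c' (F s) j := by
    intro s j
    rw [Df_iff (P := P), Df_iff (P := P)]
    constructor
    · rintro ⟨l, hl, hl'⟩
      obtain ⟨m, hm⟩ := hch l s
      exact ⟨m, by rw [← hm, h2, hl], by rw [← hm, ← hrich]; exact hl'⟩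
    · rintro ⟨m, hm, hm'⟩
      obtain ⟨l, hl⟩ := hpr m s
      exact ⟨l, by rw [← h2, hl, hm], by rw [hrich, hl]; exact hm'⟩
  constructor
  · funext j
    have h3 := hDf [] j
    rw [h0] at h3
    exact Bool.eq_iff_iff.2 h3
  · intro s
    induction s with
    | nil => exact h0
    | cons l s ih =>
      obtain ⟨m, hm⟩ := hch l s
      have h3 := hDf (l :: s) (Encodable.encode l)
      rw [hm] at h3
      have h4 : Encodable.encode l = Encodable.encode m := h3.1 rfl
      rw [hm, ih, Encodable.encode_injective h4]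

/-! ### Measurability -/

theorem measurableSet_rich (hPm : ∀ n a z, MeasurableSet {c : ℕ → Bool | P n a c z}) (s : Node) :
    MeasurableSet {c : ℕ → Bool | rich P c s} := by
  have hDf : ∀ (s : Node) (j : ℕ), MeasurableSet {c : ℕ → Bool | Df c s j} := by
    intro s j
    cases s with
    | nil =>
      show MeasurableSet {c : ℕ → Bool | c j = true}
      have h1 : Measurable fun c : ℕ → Bool => c j := measurable_pi_apply j
      exact h1 (measurableSet_singleton true)
    | cons l s => exact MeasurableSet.const _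
  induction s with
  | nil => exact MeasurableSet.const True
  | cons l s ih =>
    have e : {c : ℕ → Bool | rich P c (l :: s)} = ({c | l.2.2 = true} ∩ {c | rich P c s}) ∪
        ({c | l.1 = 0} ∪ (({c | l.1 % 2 = 1} ∩ ({c | ¬ real s} ∪
          {c | P s.length (fun i => Nat.testBit (l.1 / 2) i) c (sq s)})) ∪
          ({c | l.1 % 2 = 0} ∩ ({c | l.1 ≠ 0} ∩
            ({c | Df c s (l.1 / 2 - 1)} ∩ ({c | l.2.1 = 0} ∩ {c | l.2.2 = false}))ᶜ)))) := by
      ext c
      simp only [rich, Set.mem_ofPred_eq, Set.mem_union, Set.mem_inter_iff, Set.mem_compl_iff,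
        imp_iff_not_or]
    rw [e]
    exact ((MeasurableSet.const _).inter ih).union ((MeasurableSet.const _).union
      (((MeasurableSet.const _).inter ((MeasurableSet.const _).union (hPm _ _ _))).union
        ((MeasurableSet.const _).inter ((MeasurableSet.const _).inter
          ((hDf _ _).inter ((MeasurableSet.const _).inter (MeasurableSet.const _))).compl))))

theorem measurableSet_col (hPm : ∀ n a z, MeasurableSet {c : ℕ → Bool | P n a c z}) (s : Node)
    (n : ℕ) : MeasurableSet {c : ℕ → Bool | col P c s = some n} := by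
  cases s with
  | nil =>
    show MeasurableSet {c : ℕ → Bool | some 0 = some n}
    exact MeasurableSet.const _
  | cons l s =>
    have e : {c : ℕ → Bool | col P c (l :: s) = some n} =
        ({c | l.2.2 = true} ∩ {c | rich P c s})ᶜ ∩ {c | l.1 = n} := by
      ext c
      simp only [col_some, Set.mem_ofPred_eq, Set.mem_inter_iff, Set.mem_compl_iff]
    rw [e]
    exact ((MeasurableSet.const _).inter (measurableSet_rich hPm s)).compl.inter
      (MeasurableSet.const _)

end Pool.Agent.D0H64.Tree
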