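import Pool.Agent.D0H64.LR
import Pool.Agent.D0H64.Tree

/-!
Assembly: every analytic quasi-order is Borel equivalent to elementary embeddability on some
invariant Borel class of structures.
-/

set_option autoImplicit false

namespace Pool.Agent.D0H64.Fin

open Pool.Agent.D0H64.EF Pool.Agent.D0H64.Tree Pool.Agent.D0H64.LR Set MeasureTheory

/-- structures -/
abbrev Str : Type := ∀ i : ℕ, (Fin (ar i) → ℕ) → Bool

/-- permutations of `ℕ` as pairs of inverse functions -/
def PS : Set ((ℕ → ℕ) × (ℕ → ℕ)) := {p | (∀ n, p.2 (p.1 n) = n) ∧ ∀ n, p.1 (p.2 n) = n}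

theorem measurableSet_PS : MeasurableSet PS := by
  have h1 : ∀ (f g : (ℕ → ℕ) × (ℕ → ℕ) → ℕ → ℕ), Measurable f → Measurable g → ∀ n : ℕ,
      MeasurableSet {p : (ℕ → ℕ) × (ℕ → ℕ) | f p (g p n) = n} := by
    intro f g hf hg n
    have e : {p : (ℕ → ℕ) × (ℕ → ℕ) | f p (g p n) = n} =
        ⋃ m : ℕ, {p | g p n = m} ∩ {p | f p m = n} := by
      ext p; simp
    rw [e]
    refine MeasurableSet.iUnion fun m => MeasurableSet.inter ?_ ?_
    · exact ((measurable_pi_apply n).comp hg) (measurableSet_singleton m)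
    · exact ((measurable_pi_apply m).comp hf) (measurableSet_singleton n)
  have e : PS = (⋂ n : ℕ, {p : (ℕ → ℕ) × (ℕ → ℕ) | p.2 (p.1 n) = n}) ∩
      ⋂ n : ℕ, {p : (ℕ → ℕ) × (ℕ → ℕ) | p.1 (p.2 n) = n} := by
    ext p; simp [PS]
  rw [e]
  exact (MeasurableSet.iInter fun n => h1 _ _ measurable_snd measurable_fst n).inter
    (MeasurableSet.iInter fun n => h1 _ _ measurable_fst measurable_snd n)

section

variable {X : Type} (e : ℕ ≃ Node) (κ : X → Node → Option ℕ)

/-- all the copies of the structures of the trees -/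
noncomputable def Phi (p : X × PS) : Str := fun i v => str e (κ p.1) i (p.2.1.1 ∘ v)

theorem measurable_Phi [MeasurableSpace X] (hκ : ∀ s n, MeasurableSet {x | κ x s = some n}) :
    Measurable (Phi e κ) := by
  have h0 : ∀ (i : ℕ) (w : Fin (ar i) → ℕ), MeasurableSet {x | str e (κ x) i w = true} := by
    intro i w
    match i with
    | 0 => exact MeasurableSet.const (str e (fun _ => none) 0 w = true)
    | 1 => exact MeasurableSet.const (str e (fun _ => none) 1 w = true)
    | n + 2 =>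
      have : {x | str e (κ x) (n + 2) w = true} =
          {x | κ x (e (w ⟨0, Nat.lt_succ_self 0⟩)) = some n} := by
        ext x
        exact @decide_eq_true_iff _ _
      rw [this]
      exact hκ _ _
  refine measurable_pi_iff.2 fun i => measurable_pi_iff.2 fun v => ?_
  refine measurable_to_bool ?_
  have e1 : (fun p : X × PS => Phi e κ p i v) ⁻¹' {true} = ⋃ w : Fin (ar i) → ℕ,
      (⋂ k, {p : X × PS | p.2.1.1 (v k) = w k}) ∩ {p : X × PS | str e (κ p.1) i w = true} := by
    ext p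
    simp only [mem_preimage, mem_singleton_iff, mem_iUnion, mem_inter_iff, mem_iInter,
      mem_ofPred_eq]
    constructor
    · intro h
      exact ⟨p.2.1.1 ∘ v, fun k => rfl, h⟩
    · rintro ⟨w, h1, h2⟩
      have h3 : p.2.1.1 ∘ v = w := funext h1
      show str e (κ p.1) i (p.2.1.1 ∘ v) = true
      rw [h3]; exact h2
  rw [e1]
  refine MeasurableSet.iUnion fun w => (MeasurableSet.iInter fun k => ?_).inter ?_
  · have h2 : Measurable fun p : X × PS => p.2.1.1 (v k) :=
      (measurable_pi_apply (v k)).comp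
        (measurable_fst.comp (measurable_subtype_coe.comp measurable_snd))
    exact h2 (measurableSet_singleton (w k))
  · exact measurable_fst (h0 i w)

theorem str_par (κ' : Node → Option ℕ) (a b : ℕ) :
    str e κ' 0 ![a, b] = true ↔ ∃ l, e b = l :: e a := by
  exact @decide_eq_true_iff _ (Classical.propDecidable _)

theorem str_root (κ' : Node → Option ℕ) (a : ℕ) :
    str e κ' 1 (fun _ => a) = true ↔ e a = [] := by
  exact @decide_eq_true_iff _ _

theorem str_col (κ' : Node → Option ℕ) (n a : ℕ) :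
    str e κ' (n + 2) (fun _ => a) = true ↔ κ' (e a) = some n := by
  exact @decide_eq_true_iff _ _

open FirstOrder Language in
theorem exists_map {L : FirstOrder.Language.{0, 0}} {M N : Type} [L.Structure M] [L.Structure N]
    (j : M ↪ₑ[L] N) : ∃ f : M → N, ∀ (n : ℕ) (r : L.Relations n) (x : Fin n → M),
      Structure.RelMap r (f ∘ x) ↔ Structure.RelMap r x :=
  ⟨j, fun _ r x => j.map_rel r x⟩

/-- relations are preserved by elementary embeddings -/
theorem map_str {a : ℕ → ℕ} {u v : ∀ i : ℕ, (Fin (a i) → ℕ) → Bool}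
    (j : @FirstOrder.Language.ElementaryEmbedding (LL a) ℕ ℕ (stc u) (stc v)) :
    ∃ f : ℕ → ℕ, ∀ i (w : Fin (a i) → ℕ), v i (f ∘ w) = true ↔ u i w = true := by
  obtain ⟨f, hf⟩ := @exists_map (LL a) ℕ ℕ (stc u) (stc v) j
  exact ⟨f, fun i w => hf (a i) ⟨i, rfl⟩ w⟩

open FirstOrder Language in
theorem ee_iff {L : FirstOrder.Language.{0, 0}} {M₁ M₂ M₃ M₄ : Type} [L.Structure M₁]
    [L.Structure M₂] [L.Structure M₃] [L.Structure M₄] (f : M₁ ≃[L] M₂) (g : M₃ ≃[L] M₄) :
    Nonempty (M₁ ↪ₑ[L] M₃) ↔ Nonempty (M₂ ↪ₑ[L] M₄) := by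
  constructor
  · rintro ⟨j⟩
    exact ⟨(g.toElementaryEmbedding.comp j).comp f.symm.toElementaryEmbedding⟩
  · rintro ⟨j⟩
    exact ⟨(g.symm.toElementaryEmbedding.comp j).comp f.toElementaryEmbedding⟩

theorem option_ext {o o' : Option ℕ} (h : ∀ n, o = some n ↔ o' = some n) : o = o' := by
  cases o with
  | none =>
    cases o' with
    | none => rfl
    | some m => exact (h m).2 rfl
  | some m => exact ((h m).1 rfl).symm

/-- the data of a map preserving the relations -/
theorem of_map {κ₁ κ₂ : Node → Option ℕ} {j : ℕ → ℕ}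
    (hj : ∀ i (w : Fin (ar i) → ℕ), str e κ₂ i (j ∘ w) = true ↔ str e κ₁ i w = true) :
    e (j (e.symm [])) = [] ∧
    (∀ s t, (∃ l, t = l :: s) ↔ ∃ m, e (j (e.symm t)) = m :: e (j (e.symm s))) ∧
    ∀ s, κ₂ (e (j (e.symm s))) = κ₁ s := by
  refine ⟨?_, ?_, ?_⟩
  · have h := hj 1 (fun _ => e.symm [])
    have h1 : str e κ₂ 1 (fun _ => j (e.symm [])) = true := h.2 ((str_root e κ₁ _).2 (by simp))
    exact (str_root e κ₂ _).1 h1
  · intro s t
    have h := hj 0 ![e.symm s, e.symm t]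
    have h1 : j ∘ ![e.symm s, e.symm t] = ![j (e.symm s), j (e.symm t)] := by
      funext k
      fin_cases k <;> rfl
    have h2 := str_par e κ₂ (j (e.symm s)) (j (e.symm t))
    have h3 := str_par e κ₁ (e.symm s) (e.symm t)
    rw [Equiv.apply_symm_apply, Equiv.apply_symm_apply] at h3
    rw [← h3, ← h2, ← h1]
    exact h.symm
  · intro s
    refine option_ext fun n => ?_
    have h : str e κ₂ (n + 2) (fun _ => j (e.symm s)) = true ↔
      str e κ₁ (n + 2) (fun _ => e.symm s) = true := hj (n + 2) (fun _ => e.symm s)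
    rw [str_col, str_col, Equiv.apply_symm_apply] at h
    exact h

end

variable {P : ℕ → (ℕ → Bool) → (ℕ → Bool) → (ℕ → ℕ) → Prop}

theorem emb_iff (hP : Tr P) (e : ℕ ≃ Node) (c c' : ℕ → Bool) :
    (∃ z, ∀ n, P n c c' z) ↔ Nonempty (@FirstOrder.Language.ElementaryEmbedding (LL ar) ℕ ℕ
      (stc (str e (col P c))) (stc (str e (col P c')))) := by
  constructor
  · rintro ⟨z, hz⟩
    exact elementary e good_col good_col rfl (exists_emb hP hz)
  · rintro ⟨j⟩
    obtain ⟨f, hf⟩ := map_str j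
    obtain ⟨h1, h2, h3⟩ := of_map e (κ₁ := col P c) (κ₂ := col P c') (j := f) hf
    exact of_emb hP (F := fun s => e (f (e.symm s))) h1
      (fun l s => (h2 s (l :: s)).1 ⟨l, rfl⟩) h3

theorem inj_Phi {X : Type} (e : ℕ ≃ Node) (c : X → ℕ → Bool) (hc : Function.Injective c) :
    Function.Injective (Phi e fun x => col P (c x)) := by
  rintro ⟨x, ⟨⟨σ, σ'⟩, h1, h2⟩⟩ ⟨y, ⟨⟨τ, τ'⟩, h3, h4⟩⟩ h
  simp only at h1 h2 h3 h4
  have h5 : ∀ i (w : Fin (ar i) → ℕ), str e (col P (c y)) i ((fun a => τ (σ' a)) ∘ w) = true ↔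
      str e (col P (c x)) i w = true := by
    intro i w
    have h6 := congrFun (congrFun h i) (σ' ∘ w)
    have h7 : σ ∘ (σ' ∘ w) = w := funext fun k => h2 (w k)
    have h8 : str e (col P (c x)) i (σ ∘ (σ' ∘ w)) = str e (col P (c y)) i (τ ∘ (σ' ∘ w)) := h6
    rw [h7] at h8
    rw [h8]
    rfl
  obtain ⟨a1, a2, a3⟩ := of_map e h5
  have hbij : Function.Bijective fun s => e (τ (σ' (e.symm s))) := by
    refine Function.bijective_iff_has_inverse.2 ⟨fun s => e (σ (τ' (e.symm s))), fun s => ?_,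
      fun s => ?_⟩
    · simp [h3, h2]
    · simp [h1, h4]
  obtain ⟨b1, b2⟩ := rigid hbij a1 a2 a3
  have hxy : x = y := hc b1
  subst hxy
  have hst : ∀ a, τ (σ' a) = a := by
    intro a
    have h6 := b2 (e a)
    simp only [Equiv.symm_apply_apply] at h6
    exact e.injective h6
  have e1 : σ = τ := by
    funext a
    have h6 := hst (σ a)
    rw [h1] at h6
    exact h6.symm
  have e2 : σ' = τ' := by
    funext a
    have h6 := h3 (σ' a)
    rw [hst] at h6
    exact h6.symm
  subst e1 e2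
  rfl

/-- the copies are isomorphic to the original structures -/
theorem copy_iff {a : ℕ → ℕ} (u v : ∀ i : ℕ, (Fin (a i) → ℕ) → Bool) (p q : PS) :
    Nonempty (@FirstOrder.Language.ElementaryEmbedding (LL a) ℕ ℕ
      (stc (fun i w => u i (p.1.1 ∘ w))) (stc (fun i w => v i (q.1.1 ∘ w)))) ↔
    Nonempty (@FirstOrder.Language.ElementaryEmbedding (LL a) ℕ ℕ (stc u) (stc v)) := by
  have key : ∀ (u : ∀ i : ℕ, (Fin (a i) → ℕ) → Bool) (p : PS),
      Nonempty (@FirstOrder.Language.Equiv (LL a) ℕ ℕ (stc (fun i w => u i (p.1.1 ∘ w)))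
        (stc u)) := by
    intro u p
    refine ⟨@FirstOrder.Language.Equiv.mk (LL a) ℕ ℕ (stc (fun i w => u i (p.1.1 ∘ w)))
        (stc u) ⟨p.1.1, p.1.2, p.2.1, p.2.2⟩ (fun f => PEmpty.elim f) (fun r x => ?_)⟩
    exact Iff.rfl
  obtain ⟨f⟩ := key u p
  obtain ⟨g⟩ := key v q
  exact @ee_iff (LL a) ℕ ℕ ℕ ℕ (stc (fun i w => u i (p.1.1 ∘ w))) (stc u)
    (stc (fun i w => v i (q.1.1 ∘ w))) (stc v) f g

theorem tr_S (G : (ℕ → ℕ) → (ℕ → Bool) × (ℕ → Bool)) : Tr (S G) where
  congr := fun _ _ _ _ _ _ _ h h1 h2 h3 => h.congr h1 h2 h3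
  refl := fun n a z => S.refl n a z
  trans := fun _ _ _ _ _ _ h h' => h.trans h'

theorem measurable_S (G : (ℕ → ℕ) → (ℕ → Bool) × (ℕ → Bool)) (n : ℕ) (a : ℕ → Bool) (z : ℕ → ℕ) :
    MeasurableSet {c : ℕ → Bool | S G n a c z} := by
  refine IsOpen.measurableSet ?_
  rw [isOpen_iff_mem_nhds]
  intro c hc
  filter_upwards [(isOpen_ag (f := fun c : ℕ → Bool => c) continuous_id n c).mem_nhds Ag.rfl']
    with c' h1
  exact S.congr hc Ag.rfl' (Ag.symm h1) Ag.rfl'

theorem main (X : Type) [TopologicalSpace X] [PolishSpace X] [MeasurableSpace X] [BorelSpace X]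
    (R : X → X → Prop) (hrefl : ∀ x, R x x) (htrans : ∀ x y z, R x y → R y z → R x z)
    (hR : AnalyticSet {p : X × X | R p.1 p.2}) :
    ∃ B : Set Str, MeasurableSet B ∧
      (∀ (σ : Equiv.Perm ℕ) (u : Str), u ∈ B ↔ (fun i v => u i (σ ∘ v)) ∈ B) ∧
      (∃ f : X → Str, Measurable f ∧ (∀ x, f x ∈ B) ∧
        ∀ x y, R x y ↔ Nonempty (@FirstOrder.Language.ElementaryEmbedding (LL ar) ℕ ℕ
          (stc (f x)) (stc (f y)))) ∧
      ∃ g : B → X, Measurable g ∧ ∀ u v : B,
        Nonempty (@FirstOrder.Language.ElementaryEmbedding (LL ar) ℕ ℕ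
          (stc u.1) (stc v.1)) ↔ R (g u) (g v) := by
  classical
  obtain ⟨e⟩ : Nonempty (ℕ ≃ Node) := by
    have h1 : Nonempty (Node ≃ ℕ) := nonempty_equiv_of_countable
    exact h1.map Equiv.symm
  obtain ⟨c, hc, hci⟩ := MeasurableSpace.measurable_injection_nat_bool_of_countablySeparated X
  -- the quasi-order on Cantor space
  let R' : (ℕ → Bool) → (ℕ → Bool) → Prop := fun a b => a = b ∨ ∃ x y, c x = a ∧ c y = b ∧ R x y
  have hR'c : ∀ x y, R' (c x) (c y) ↔ R x y := by
    intro x y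
    constructor
    · rintro (h | ⟨x', y', h1, h2, h3⟩)
      · rw [hci h]; exact hrefl y
      · rw [hci h1, hci h2] at h3; exact h3
    · intro h
      exact Or.inr ⟨x, y, rfl, rfl, h⟩
  have hR'r : ∀ a, R' a a := fun a => Or.inl rfl
  have hR't : ∀ a b d, R' a b → R' b d → R' a d := by
    rintro a b d (rfl | ⟨x, y, h1, h2, h3⟩) h'
    · exact h'
    · rcases h' with rfl | ⟨x', y', h4, h5, h6⟩
      · exact Or.inr ⟨x, y, h1, h2, h3⟩
      · have : x' = y := hci (h4.trans h2.symm)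
        subst this
        exact Or.inr ⟨x, y', h1, h5, htrans _ _ _ h3 h6⟩
  have hPB : PolishSpace Bool := inferInstance
  have hPC : PolishSpace (ℕ → Bool) := inferInstance
  have hR'a : AnalyticSet {p : (ℕ → Bool) × (ℕ → Bool) | R' p.1 p.2} := by
    have e1 : {p : (ℕ → Bool) × (ℕ → Bool) | R' p.1 p.2} =
        {p | p.1 = p.2} ∪ (fun p : X × X => (c p.1, c p.2)) '' {p : X × X | R p.1 p.2} := by
      ext ⟨a, b⟩
      simp only [mem_ofPred_eq, mem_union, mem_image, Prod.exists, Prod.mk.injEq, R']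
      constructor
      · rintro (h | ⟨x, y, h1, h2, h3⟩)
        · exact Or.inl h
        · exact Or.inr ⟨x, y, h3, h1, h2⟩
      · rintro (h | ⟨x, y, h3, h1, h2⟩)
        · exact Or.inl h
        · exact Or.inr ⟨x, y, h1, h2, h3⟩
    rw [e1]
    rw [union_eq_iUnion]
    refine AnalyticSet.iUnion fun b => ?_
    cases b
    swap
    · exact (isClosed_eq continuous_fst continuous_snd).measurableSet.analyticSet
    · rw [AnalyticSet] at hR
      rcases hR with h | ⟨f, hf, hfr⟩
      · show AnalyticSet ((fun p : X × X => (c p.1, c p.2)) '' {p : X × X | R p.1 p.2})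
        rw [h, image_empty]; exact analyticSet_empty
      · show AnalyticSet ((fun p : X × X => (c p.1, c p.2)) '' {p : X × X | R p.1 p.2})
        rw [← hfr, ← range_comp]
        have h1 : Measurable ((fun p : X × X => (c p.1, c p.2)) ∘ f) := by
          refine Measurable.comp ?_ hf.measurable
          exact (hc.comp measurable_fst).prodMk (hc.comp measurable_snd)
        rw [← image_univ]
        exact MeasurableSet.univ.analyticSet_image h1
  obtain ⟨G, hG, hGr⟩ : ∃ G : (ℕ → ℕ) → (ℕ → Bool) × (ℕ → Bool), Continuous G ∧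
      range G = {p : (ℕ → Bool) × (ℕ → Bool) | R' p.1 p.2} := by
    rw [AnalyticSet] at hR'a
    rcases hR'a with h | ⟨G, hG, hGr⟩
    · exfalso
      have : ((fun _ => true, fun _ => true) : (ℕ → Bool) × (ℕ → Bool)) ∈
          {p : (ℕ → Bool) × (ℕ → Bool) | R' p.1 p.2} := hR'r _
      rw [h] at this
      exact this
    · exact ⟨G, hG, hGr⟩
  have hS : ∀ a b, R' a b ↔ ∃ z, ∀ n, S G n a b z := by
    intro a b
    constructor
    · intro h
      exact exists_S (by rw [hGr]; exact h)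
    · rintro ⟨z, hz⟩
      refine of_S hG (fun z => ?_) hR'r hR't hz
      have : G z ∈ range G := mem_range_self z
      rw [hGr] at this
      exact this
  have hRe : ∀ x y, R x y ↔ Nonempty (@FirstOrder.Language.ElementaryEmbedding (LL ar) ℕ ℕ
      (stc (str e (col (S G) (c x)))) (stc (str e (col (S G) (c y))))) := by
    intro x y
    rw [← emb_iff (tr_S G), ← hS, hR'c]
  let Ph : X × PS → Str := Phi e fun x => col (S G) (c x)
  have hPm : Measurable Ph := by
    refine measurable_Phi e _ fun s n => ?_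
    exact hc (measurableSet_col (measurable_S G) s n)
  have hPi : Function.Injective Ph := inj_Phi e c hci
  have hstd : StandardBorelSpace PS := measurableSet_PS.standardBorel
  have hPe : MeasurableEmbedding Ph := hPm.measurableEmbedding hPi
  refine ⟨range Ph, hPe.measurableSet_range, ?_, ?_, ?_⟩
  · intro σ u
    constructor
    · rintro ⟨⟨x, ⟨⟨τ, τ'⟩, h1, h2⟩⟩, rfl⟩
      refine ⟨⟨x, ⟨⟨τ ∘ σ, σ.symm ∘ τ'⟩, fun n => ?_, fun n => ?_⟩⟩, rfl⟩
      · show σ.symm (τ' (τ (σ n))) = n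
        have := h1 (σ n)
        simp only at this
        rw [this, Equiv.symm_apply_apply]
      · show τ (σ (σ.symm (τ' n))) = n
        rw [Equiv.apply_symm_apply]
        exact h2 n
    · rintro ⟨⟨x, ⟨⟨τ, τ'⟩, h1, h2⟩⟩, h⟩
      refine ⟨⟨x, ⟨⟨τ ∘ σ.symm, σ ∘ τ'⟩, fun n => ?_, fun n => ?_⟩⟩, ?_⟩
      · show σ (τ' (τ (σ.symm n))) = n
        have := h1 (σ.symm n)
        simp only at this
        rw [this, Equiv.apply_symm_apply]
      · show τ (σ.symm (σ (τ' n))) = n
        rw [Equiv.symm_apply_apply]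
        exact h2 n
      · funext i v
        have h3 := congrFun (congrFun h i) (σ.symm ∘ v)
        have h4 : σ ∘ (σ.symm ∘ v) = v := funext fun k => Equiv.apply_symm_apply _ _
        simp only [h4] at h3
        exact h3
  · have hid : ((fun n : ℕ => n, fun n : ℕ => n) : (ℕ → ℕ) × (ℕ → ℕ)) ∈ PS :=
      ⟨fun n => rfl, fun n => rfl⟩
    refine ⟨fun x => Ph (x, ⟨_, hid⟩), hPm.comp measurable_prodMk_right, fun x => ⟨_, rfl⟩, ?_⟩
    exact hRe
  · refine ⟨fun u => (hPe.equivRange.symm u).1, measurable_fst.comp hPe.equivRange.symm.measurable,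
      ?_⟩
    rintro ⟨_, ⟨⟨x, p⟩, rfl⟩⟩ ⟨_, ⟨⟨y, q⟩, rfl⟩⟩
    have hsx : ∀ r : X × PS, hPe.equivRange.symm ⟨Ph r, mem_range_self r⟩ = r :=
      fun r => hPe.equivRange_symm_apply_mk r
    simp only [hsx]
    rw [hRe]
    exact copy_iff (str e (col (S G) (c x))) (str e (col (S G) (c y))) p q

end Pool.Agent.D0H64.Fin
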