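import Pool.Agent.D0H64.Gen
import Pool.Agent.Helper743.Oracle

/-!
A computable graph whose neighbour lists are computable in a 1-generic set is highly computable, and
a highly computable graph with chromatic number two has a computable colouring with four colours.
-/

set_option autoImplicit false

namespace Pool.Agent.D0H64.Gas

open Encodable Nat.Partrec Nat.Partrec.Code Pool.Agent.H37

theorem mem_le_encode_list (l : List ℕ) (z : ℕ) (hz : z ∈ l) : z ≤ encode l := by
  induction l with
  | nil => simp at hz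
  | cons a l ih =>
    rw [encode_list_cons]
    have h := Nat.add_le_pair (encode a) (encode l)
    rcases List.mem_cons.1 hz with rfl | h1
    · simp only [encode_nat] at h ⊢; omega
    · have := ih h1
      omega

theorem mem_le_encode (F : Finset ℕ) (z : ℕ) (hz : z ∈ F) : z ≤ encode F := by
  obtain ⟨l, hl⟩ : ∃ l : List ℕ, encode F.val = encode l := ⟨_, rfl⟩
  have h0 : encode F = encode F.val := rfl
  have h1 : (decode (encode F.val) : Option (Multiset ℕ)) = some F.val := encodek _
  have h2 : (decode (encode l) : Option (Multiset ℕ)) = some (l : Multiset ℕ) := by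
    show ((↑) : List ℕ → Multiset ℕ) <$> decode (α := List ℕ) (encode l) = _
    rw [encodek]; rfl
  rw [hl, h2] at h1
  have h3 : (l : Multiset ℕ) = F.val := Option.some.inj h1
  rw [h0, hl]
  refine mem_le_encode_list l z ?_
  rw [← Multiset.mem_coe, h3]
  exact hz

/-- `a` is 1-generic -/
def Generic (a : ℕ → Bool) : Prop :=
  ∀ S : List Bool → Prop, REPred S → (∃ n, S ((List.range n).map a)) ∨
    ∃ n, ∀ τ, (List.range n).map a <+: τ → ¬ S τ

theorem not_computable {a : ℕ → Bool} (ha : Generic a) : ¬ CI ∅ a := by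
  intro h
  rcases ha (fun τ => ∃ i : ℕ, (decide (i < τ.length) && (τ.getD i false != a i)) = true)
    (re_of_exists (fun τ (i : ℕ) => decide (i < τ.length) && (τ.getD i false != a i))
      (by fun_prop) fun τ => Iff.rfl) with ⟨n, i, hi⟩ | ⟨n, hn⟩
  · simp only [List.length_map, List.length_range, Bool.and_eq_true, decide_eq_true_eq] at hi
    obtain ⟨h1, h2⟩ := hi
    rw [List.getD_eq_getElem _ _ (by simpa using h1)] at h2
    simp at h2
  · refine hn ((List.range n).map a ++ [!a n]) (List.prefix_append _ _) ⟨n, ?_⟩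
    simp

theorem map_range_prefix (a : ℕ → Bool) {n m : ℕ} (h : n ≤ m) :
    ∃ ρ, (List.range m).map a = (List.range n).map a ++ ρ := by
  obtain ⟨k, rfl⟩ := Nat.exists_eq_add_of_le h
  rw [List.range_add, List.map_append]
  exact ⟨_, rfl⟩

theorem exists_bound {a : ℕ → Bool} (ha : Generic a) (f : ℕ → ℕ → Bool)
    (hf : CI ∅ fun p : ℕ × ℕ => f p.1 p.2) (β : ℕ → ℕ) (hβ : ∀ x y, f x y = true → y ≤ β x)
    (hr : Nat.RecursiveIn {((fun n => (a n).toNat : ℕ → ℕ) : ℕ →. ℕ)} (β : ℕ →. ℕ)) :
    ∃ b : ℕ → ℕ, CI ∅ b ∧ ∀ x y, f x y = true → y < b x := by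
  obtain ⟨ev, hev, hmono, hspec⟩ := Helper743.use_principle (fun n => (a n).toNat) _ hr
  have hev' : CI ∅ fun p : List ℕ × ℕ => ev p.1 p.2 := CI.of_comp hev
  have hev2 : CI ∅ fun p : List Bool × ℕ => ev (p.1.map Bool.toNat) p.2 :=
    hev'.comp (g := fun p : List Bool × ℕ => (p.1.map Bool.toNat, p.2)) (by fun_prop)
  have hpre : ∀ n, ((List.range n).map a).map Bool.toNat = Helper743.pre (fun n => (a n).toNat) n := by
    intro n
    unfold Helper743.pre
    rw [List.map_map]
    rfl
  have hsp : ∀ x y, (∃ n, ev (((List.range n).map a).map Bool.toNat) x = some y) ↔ y = β x := by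
    intro x y
    have := hspec x y
    simp only [hpre]
    rw [← this]
    simp
  rcases ha (fun τ => ∃ q : ℕ × ℕ × ℕ, (decide (ev (τ.map Bool.toNat) q.1 = some q.2.1) &&
      f q.1 q.2.2 && decide (q.2.1 < q.2.2)) = true)
    (re_of_exists (fun τ (q : ℕ × ℕ × ℕ) => decide (ev (τ.map Bool.toNat) q.1 = some q.2.1) &&
      f q.1 q.2.2 && decide (q.2.1 < q.2.2)) (by
        refine CI.and (CI.and (CI.eq ?_ (by fun_prop)) ?_) (by fun_prop)
        · exact hev2.comp (g := fun p : List Bool × (ℕ × ℕ × ℕ) => (p.1, p.2.1)) (by fun_prop)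
        · exact hf.comp (g := fun p : List Bool × (ℕ × ℕ × ℕ) => (p.2.1, p.2.2.2)) (by fun_prop))
        fun τ => Iff.rfl) with ⟨n, ⟨x, y, z⟩, h⟩ | ⟨n, hn⟩
  · simp only [Bool.and_eq_true, decide_eq_true_eq] at h
    have h1 := (hsp x y).1 ⟨n, h.1.1⟩
    have h2 := hβ x z h.1.2
    omega
  · have hex : ∀ x : ℕ, ∃ ρ : List Bool,
        (ev (((List.range n).map a ++ ρ).map Bool.toNat) x).isSome = true := by
      intro x
      obtain ⟨m, hm⟩ := (hsp x (β x)).2 rfl
      obtain ⟨ρ, hρ⟩ := map_range_prefix a (le_max_right m n)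
      obtain ⟨ρ', hρ'⟩ := map_range_prefix a (le_max_left m n)
      refine ⟨ρ, ?_⟩
      rw [← hρ, hρ']
      rw [hmono _ _ _ _ (by rw [List.map_append]; exact List.prefix_append _ _) hm]
      rfl
    obtain ⟨F, hF, hF'⟩ := CI.exists_choice (O := ∅)
      (p := fun (x : ℕ) (ρ : List Bool) =>
        (ev (((List.range n).map a ++ ρ).map Bool.toNat) x).isSome) (by
        refine CI.isSome ?_
        exact hev2.comp (g := fun p : ℕ × List Bool => ((List.range n).map a ++ p.2, p.1))
          (by fun_prop)) hex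
    refine ⟨fun x => (ev (((List.range n).map a ++ F x).map Bool.toNat) x).getD 0 + 1, ?_, ?_⟩
    · have h1 : CI ∅ fun x : ℕ => ev (((List.range n).map a ++ F x).map Bool.toNat) x :=
        hev2.comp (g := fun x : ℕ => ((List.range n).map a ++ F x, x)) (by fun_prop)
      fun_prop
    · intro x z hz
      obtain ⟨y, hy⟩ := Option.isSome_iff_exists.1 (hF' x)
      show z < (ev (((List.range n).map a ++ F x).map Bool.toNat) x).getD 0 + 1
      rw [hy, Option.getD_some]
      by_contra hc
      refine hn ((List.range n).map a ++ F x) (List.prefix_append _ _) ⟨(x, y, z), ?_⟩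
      simp only [Bool.and_eq_true, decide_eq_true_eq]
      exact ⟨⟨hy, hz⟩, by omega⟩

theorem exists_coloring (f : ℕ → ℕ → Bool) (hf : CI ∅ fun p : ℕ × ℕ => f p.1 p.2)
    (hsymm : ∀ x y, f x y = true → f y x = true)
    (b : ℕ → ℕ) (hb : CI ∅ b) (hfb : ∀ x y, f x y = true → y < b x)
    (C : ℕ → Bool) (hC : ∀ x y, f x y = true → C x ≠ C y) :
    ∃ c : ℕ → ℕ, CI ∅ c ∧ (∀ x, c x < 4) ∧ ∀ x y, f x y = true → c x ≠ c y := by
  let nx : ℕ → ℕ := fun m => max (m + 1) ((List.range m).foldr (fun x s => max (b x) s) 0)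
  have hnx : CI ∅ nx := by
    refine CI.max (by fun_prop) (CI.foldr (f := fun _ x s => max (b x) s) ?_ (by fun_prop)
      (by fun_prop))
    fun_prop
  have hfold : ∀ (l : List ℕ) x, x ∈ l → b x ≤ l.foldr (fun x s => max (b x) s) 0 := by
    intro l
    induction l with
    | nil => intro x hx; simp at hx
    | cons y l ih =>
      intro x hx
      rw [List.foldr_cons]
      rcases List.mem_cons.1 hx with rfl | h
      · exact le_max_left _ _
      · exact (ih x h).trans (le_max_right _ _)
  let B : ℕ → ℕ := fun n => Nat.rec (motive := fun _ => ℕ) 0 (fun _ m => nx m) n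
  have hBs : ∀ n, B (n + 1) = nx (B n) := fun n => rfl
  have hB : CI ∅ B := CI.of_rec1 (h := fun _ m => nx m)
    (hnx.comp (g := fun p : ℕ × ℕ => p.2) (by fun_prop)) hBs
  have hB1 : ∀ n, B n < B (n + 1) := by
    intro n
    rw [hBs]
    exact lt_of_lt_of_le (Nat.lt_succ_self _) (le_max_left _ _)
  have hBm : StrictMono B := strictMono_nat_of_lt_succ hB1
  have hBb : ∀ n x, x < B n → b x ≤ B (n + 1) := by
    intro n x hx
    rw [hBs]
    exact (hfold _ x (by simpa using hx)).trans (le_max_right _ _)
  have hlex : ∀ x : ℕ, ∃ n, decide (x < B n) = true := fun x =>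
    ⟨x + 1, by simpa using lt_of_lt_of_le (Nat.lt_succ_self x) (hBm.id_le (x + 1))⟩
  let lev : ℕ → ℕ := fun x => Nat.find (hlex x)
  have hlev : CI ∅ lev := by
    refine CI.find (p := fun x n => decide (x < B n)) ?_ hlex
    exact CI.lt (by fun_prop) (hB.comp (by fun_prop))
  have hlev1 : ∀ x, x < B (lev x) := fun x => of_decide_eq_true (Nat.find_spec (hlex x))
  have hlev2 : ∀ x n, x < B n → lev x ≤ n := fun x n h => Nat.find_min' (hlex x) (by simpa using h)
  obtain ⟨col, hcol, hcol'⟩ := CI.exists_choice (O := ∅)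
    (p := fun (n : ℕ) (l : List Bool) => (List.range (B n)).all fun x =>
      (List.range (B n)).all fun y => !f x y || (l.getD x false != l.getD y false)) (by
        have h1 : CI ∅ fun q : ℕ × List Bool => B q.1 := hB.comp (by fun_prop)
        refine CI.all h1.range ?_
        have h2 : CI ∅ fun q : (ℕ × List Bool) × ℕ => B q.1.1 := hB.comp (by fun_prop)
        refine CI.all h2.range ?_
        have h3 : CI ∅ fun q : ((ℕ × List Bool) × ℕ) × ℕ => f q.1.2 q.2 :=
          hf.comp (g := fun q : ((ℕ × List Bool) × ℕ) × ℕ => (q.1.2, q.2)) (by fun_prop)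
        exact CI.or h3.not (by fun_prop)) (by
      intro n
      refine ⟨(List.range (B n)).map C, ?_⟩
      simp only [List.all_eq_true, List.mem_range]
      intro x hx y hy
      rw [List.getD_eq_getElem _ _ (by simpa using hx), List.getD_eq_getElem _ _ (by simpa using hy)]
      simp only [List.getElem_map, List.getElem_range]
      cases hxy : f x y
      · rfl
      · simpa using hC x y hxy)
  have hcol2 : ∀ n x y, x < B n → y < B n → f x y = true →
      (col n).getD x false ≠ (col n).getD y false := by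
    intro n x y hx hy hxy
    have h := hcol' n
    simp only [List.all_eq_true, List.mem_range] at h
    have h1 := h x hx y hy
    rw [hxy] at h1
    simpa using h1
  refine ⟨fun x => 2 * (lev x % 2) + ((col (lev x)).getD x false).toNat, by fun_prop, ?_, ?_⟩
  · intro x
    have h1 := Nat.mod_lt (lev x) (by norm_num : 0 < 2)
    have h2 := Bool.toNat_le ((col (lev x)).getD x false)
    show 2 * (lev x % 2) + ((col (lev x)).getD x false).toNat < 4
    omega
  · intro x y hxy heq
    have heq' : 2 * (lev x % 2) + ((col (lev x)).getD x false).toNat =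
      2 * (lev y % 2) + ((col (lev y)).getD y false).toNat := heq
    have h1 : lev y ≤ lev x + 1 :=
      hlev2 y _ ((hfb x y hxy).trans_le (hBb _ x (hlev1 x)))
    have h2 : lev x ≤ lev y + 1 :=
      hlev2 x _ ((hfb y x (hsymm x y hxy)).trans_le (hBb _ y (hlev1 y)))
    have h3 := Bool.toNat_le ((col (lev x)).getD x false)
    have h4 := Bool.toNat_le ((col (lev y)).getD y false)
    have h5 : lev x = lev y := by omega
    have h6 : (col (lev x)).getD x false = (col (lev x)).getD y false := by
      rw [← h5] at heq' h4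
      have h7 : ((col (lev x)).getD x false).toNat = ((col (lev x)).getD y false).toNat := by omega
      revert h7
      cases (col (lev x)).getD x false <;> cases (col (lev x)).getD y false <;> simp
    exact hcol2 (lev x) x y (hlev1 x) (by rw [h5]; exact hlev1 y) hxy h6

end Pool.Agent.D0H64.Gas
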