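import Pool.Agent.H37.RE

/-!
A 1-generic set which is computable in the halting set.
-/

set_option autoImplicit false

namespace Pool.Agent.D0H64.Gen

open Encodable Nat.Partrec Nat.Partrec.Code Pool.Agent.H37

/-- the halting set, as a function -/
noncomputable def KK (n : ℕ) : ℕ :=
  @ite ℕ (((Denumerable.ofNat Nat.Partrec.Code n).eval n).Dom) (Classical.propDecidable _) 1 0

/-- the oracle -/
noncomputable def OK : Set (ℕ →. ℕ) := {fun n => Part.some (KK n)}

theorem KK_one {n : ℕ} : KK n = 1 ↔ ((Denumerable.ofNat Nat.Partrec.Code n).eval n).Dom := by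
  unfold KK
  split_ifs with h <;> simp [h]

theorem KK_zero {n : ℕ} : KK n = 0 ↔ ¬ ((Denumerable.ofNat Nat.Partrec.Code n).eval n).Dom := by
  unfold KK
  split_ifs with h <;> simp [h]

theorem ci_KK : CI OK KK := CI.self KK

/-- the halting set is complete -/
theorem re_reduce {α : Type} [Primcodable α] {p : α → Prop} (hp : REPred p) :
    ∃ g : α → ℕ, CI ∅ g ∧ ∀ a, p a ↔ ((Denumerable.ofNat Nat.Partrec.Code (g a)).eval (g a)).Dom := by
  obtain ⟨D, hD, -, h⟩ := re_stage hp
  let f : ℕ →. ℕ := fun n => Nat.rfind fun s =>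
    Part.some ((decode (α := α) n.unpair.1).elim false fun a => D a s)
  have hf : Nat.Partrec f := by
    refine Partrec.nat_iff.1 (partrec_of_ri (RI.rfind (p := fun (n s : ℕ) => Part.some
      ((decode (α := α) n.unpair.1).elim false fun a => D a s)) (CI.ri ?_)))
    refine CI.elim (by fun_prop) (by fun_prop) ?_
    exact hD.comp (g := fun q : (ℕ × ℕ) × α => (q.2, q.1.2)) (by fun_prop)
  obtain ⟨c, hc⟩ := exists_code.1 hf
  refine ⟨fun a => encode (curry c (encode a)), ?_, fun a => ?_⟩
  · fun_prop
  · rw [Denumerable.ofNat_encode, eval_curry, hc, h]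
    have h2 : f (Nat.pair (encode a) (encode (curry c (encode a)))) =
        Nat.rfind (fun s => Part.some (D a s)) := by
      simp [f]
    rw [h2]
    refine Iff.trans ?_ (Nat.rfind_dom (p := fun s => Part.some (D a s))).symm
    simp

/-- some extension of `σ` is in the `e`-th c.e. set of strings -/
def Q (x : ℕ × List Bool) : Prop := ∃ b : List Bool × ℕ, (ev x.1 (encode (x.2 ++ b.1)) b.2).isSome

theorem re_Q : REPred Q := by
  refine re_of_exists (fun (x : ℕ × List Bool) (b : List Bool × ℕ) =>
    (ev x.1 (encode (x.2 ++ b.1)) b.2).isSome) ?_ fun a => Iff.rfl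
  fun_prop

theorem exists_generic : ∃ a : ℕ → Bool, CI OK a ∧
    ∀ S : List Bool → Prop, REPred S → (∃ n, S ((List.range n).map a)) ∨
      ∃ n, ∀ τ, (List.range n).map a <+: τ → ¬ S τ := by
  obtain ⟨g, hg, hgQ⟩ := re_reduce re_Q
  obtain ⟨F, hF, hF'⟩ := CI.exists_choice (O := OK) (α := ℕ × List Bool) (β := List Bool × ℕ)
    (p := fun x b => decide (KK (g x) = 0) || (ev x.1 (encode (x.2 ++ b.1)) b.2).isSome) (by
      have h1 : CI OK (fun q : (ℕ × List Bool) × (List Bool × ℕ) => KK (g q.1)) :=
        ci_KK.comp (hg.of_empty.comp (by fun_prop))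
      exact CI.or (CI.eq h1 (by fun_prop)) (by fun_prop)) (by
      intro x
      by_cases h : Q x
      · obtain ⟨b, hb⟩ := h
        exact ⟨b, by simp [hb]⟩
      · refine ⟨([], 0), ?_⟩
        have : KK (g x) = 0 := KK_zero.2 fun h' => h ((hgQ x).2 h')
        simp [this])
  let nxt : ℕ → List Bool → List Bool := fun e σ =>
    (cond (decide (KK (g (e, σ)) = 0)) σ (σ ++ (F (e, σ)).1)) ++ [false]
  have hnxt : CI OK (fun p : ℕ × List Bool => nxt p.1 p.2) := by
    have h1 : CI OK (fun q : ℕ × List Bool => KK (g (q.1, q.2))) :=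
      ci_KK.comp (hg.of_empty.comp (by fun_prop))
    have h2 : CI OK (fun q : ℕ × List Bool => F (q.1, q.2)) := hF.comp (by fun_prop)
    refine CI.append (CI.cond (CI.eq h1 (by fun_prop)) (by fun_prop) ?_) (by fun_prop)
    exact CI.append (by fun_prop) h2.fst
  let Sg : ℕ → List Bool := fun n => Nat.rec (motive := fun _ => List Bool) [] (fun e σ => nxt e σ) n
  have hSg0 : Sg 0 = [] := rfl
  have hSgs : ∀ n, Sg (n + 1) = nxt n (Sg n) := fun n => rfl
  have hSg : CI OK Sg := CI.of_rec1 hnxt hSgs
  have hpre1 : ∀ n, Sg n <+: Sg (n + 1) := by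
    intro n
    rw [hSgs]
    simp only [nxt]
    cases decide (KK (g (n, Sg n)) = 0)
    · simp only [cond_false]
      rw [List.append_assoc]
      exact List.prefix_append _ _
    · simp only [cond_true]
      exact List.prefix_append _ _
  have hpre : ∀ n m, n ≤ m → Sg n <+: Sg m := by
    intro n m h
    induction m, h using Nat.le_induction with
    | base => exact List.prefix_rfl
    | succ m _ ih => exact ih.trans (hpre1 m)
  have hlen : ∀ n, n ≤ (Sg n).length := by
    intro n
    induction n with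
    | zero => simp
    | succ n ih =>
      rw [hSgs]
      simp only [nxt]
      cases decide (KK (g (n, Sg n)) = 0) <;> simp <;> omega
  let a : ℕ → Bool := fun n => (Sg (n + 1)).getD n false
  have ha : CI OK a := CI.getD (hSg.comp (g := fun n : ℕ => n + 1) (by fun_prop)) (by fun_prop)
    (by fun_prop)
  have hmap : ∀ m, ∀ k, k ≤ (Sg m).length → (List.range k).map a = (Sg m).take k := by
    intro m k hk
    apply List.ext_getElem
    · simp [hk]
    · intro i h1 h2
      simp only [List.length_map, List.length_range] at h1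
      simp only [List.getElem_map, List.getElem_range, List.getElem_take, a]
      have hi1 : i < (Sg (i + 1)).length := lt_of_lt_of_le (Nat.lt_succ_self i) (hlen (i + 1))
      have hi2 : i < (Sg m).length := lt_of_lt_of_le h1 hk
      rw [List.getD_eq_getElem _ _ hi1]
      rcases le_total (i + 1) m with h | h
      · exact (hpre _ _ h).getElem hi1
      · exact ((hpre _ _ h).getElem hi2).symm
  refine ⟨a, ha, fun S hS => ?_⟩
  obtain ⟨D, hD, hDm, hDS⟩ := re_stage hS
  obtain ⟨e, he⟩ := exists_index_part (f := fun n : ℕ => Nat.rfind fun s =>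
    Part.some ((decode (α := List Bool) n).elim false fun a => D a s)) (by
      refine (partrec_of_ri (RI.rfind (p := fun (n s : ℕ) => Part.some
        ((decode (α := List Bool) n).elim false fun a => D a s)) (CI.ri ?_)))
      refine CI.elim (by fun_prop) (by fun_prop) ?_
      exact hD.comp (g := fun q : (ℕ × ℕ) × List Bool => (q.2, q.1.2)) (by fun_prop))
  have heS : ∀ τ, S τ ↔ ∃ s, (ev e (encode τ) s).isSome := by
    intro τ
    rw [hDS]
    have h1 : (∃ s, D τ s = true) ↔ ∃ v, v ∈ (Nat.rfind fun s =>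
        Part.some ((decode (α := List Bool) (encode τ)).elim false fun a => D a s)) := by
      rw [← Part.dom_iff_mem]
      refine Iff.trans ?_ (Nat.rfind_dom (p := fun s =>
        Part.some ((decode (α := List Bool) (encode τ)).elim false fun a => D a s))).symm
      simp
    rw [h1]
    constructor
    · rintro ⟨v, hv⟩
      obtain ⟨s, hs⟩ := (he _ _).1 hv
      exact ⟨s, by simp [hs]⟩
    · rintro ⟨s, hs⟩
      obtain ⟨v, hv⟩ := Option.isSome_iff_exists.1 hs
      exact ⟨v, (he _ _).2 ⟨s, hv⟩⟩
  by_cases hQ : Q (e, Sg e)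
  · left
    have hne : KK (g (e, Sg e)) ≠ 0 := fun h => KK_zero.1 h ((hgQ _).1 hQ)
    have h1 := hF' (e, Sg e)
    simp only [hne, decide_false, Bool.false_or] at h1
    have h2 : Sg (e + 1) = (Sg e ++ (F (e, Sg e)).1) ++ [false] := by
      rw [hSgs]
      simp only [nxt, hne, decide_false, cond_false]
    refine ⟨(Sg e ++ (F (e, Sg e)).1).length, ?_⟩
    rw [hmap (e + 1) _ (by rw [h2]; simp), h2, List.take_left' rfl, heS]
    exact ⟨_, h1⟩
  · right
    refine ⟨(Sg e).length, fun τ hτ hSτ => hQ ?_⟩
    rw [hmap e _ le_rfl, List.take_length] at hτ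
    obtain ⟨ρ, rfl⟩ := hτ
    obtain ⟨s, hs⟩ := (heS _).1 hSτ
    exact ⟨(ρ, s), hs⟩

end Pool.Agent.D0H64.Gen
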