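import Mathlib

/-!
Tree representations of analytic quasi-orders on Cantor space (Louveau-Rosendal).
-/

set_option autoImplicit false

namespace Pool.Agent.D0H64.LR

open Set Topology

/-- agreement up to `n` -/
def Ag {α : Type} (n : ℕ) (a b : ℕ → α) : Prop := ∀ i < n, a i = b i

theorem Ag.rfl' {α : Type} {n : ℕ} {a : ℕ → α} : Ag n a a := fun _ _ => rfl
theorem Ag.symm {α : Type} {n : ℕ} {a b : ℕ → α} (h : Ag n a b) : Ag n b a :=
  fun i hi => (h i hi).symm
theorem Ag.trans {α : Type} {n : ℕ} {a b c : ℕ → α} (h : Ag n a b) (h' : Ag n b c) : Ag n a c :=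
  fun i hi => (h i hi).trans (h' i hi)
theorem Ag.mono {α : Type} {n m : ℕ} {a b : ℕ → α} (h : Ag n a b) (hm : m ≤ n) : Ag m a b :=
  fun i hi => h i (hi.trans_le hm)

variable (G : (ℕ → ℕ) → (ℕ → Bool) × (ℕ → Bool))

/-- the tree of `G` -/
def T (n : ℕ) (a b : ℕ → Bool) (z : ℕ → ℕ) : Prop :=
  ∃ z', Ag n z' z ∧ Ag n (G z').1 a ∧ Ag n (G z').2 b

variable {G}

theorem T.congr {n : ℕ} {a b a' b' : ℕ → Bool} {z z' : ℕ → ℕ} (h : T G n a b z) (ha : Ag n a a')
    (hb : Ag n b b') (hz : Ag n z z') : T G n a' b' z' := by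
  obtain ⟨y, h1, h2, h3⟩ := h
  exact ⟨y, h1.trans hz, h2.trans ha, h3.trans hb⟩

theorem T.mono {n m : ℕ} {a b : ℕ → Bool} {z : ℕ → ℕ} (h : T G n a b z) (hm : m ≤ n) :
    T G m a b z := by
  obtain ⟨y, h1, h2, h3⟩ := h
  exact ⟨y, h1.mono hm, h2.mono hm, h3.mono hm⟩

variable (G)

/-- chains of length `k` -/
def Ch (n k : ℕ) (a b : ℕ → Bool) (z : ℕ → ℕ) : Prop :=
  ∃ (w : ℕ → ℕ → Bool) (t : ℕ → ℕ → ℕ), Ag n (w 0) a ∧ Ag n (w k) b ∧
    ∀ i < k, (∀ j < n, t i j ≤ z j) ∧ T G n (w i) (w (i + 1)) (t i)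

/-- the tree of Louveau and Rosendal -/
def S (n : ℕ) (a b : ℕ → Bool) (z : ℕ → ℕ) : Prop := n = 0 ∨ ∃ k ≤ z 0, Ch G n k a b z

variable {G}

theorem Ch.congr {n k : ℕ} {a b a' b' : ℕ → Bool} {z z' : ℕ → ℕ} (h : Ch G n k a b z)
    (ha : Ag n a a') (hb : Ag n b b') (hz : Ag n z z') : Ch G n k a' b' z' := by
  obtain ⟨w, t, h1, h2, h3⟩ := h
  exact ⟨w, t, h1.trans ha, h2.trans hb, fun i hi => ⟨fun j hj => (hz j hj) ▸ (h3 i hi).1 j hj,
    (h3 i hi).2⟩⟩

theorem Ch.mono {n m k : ℕ} {a b : ℕ → Bool} {z : ℕ → ℕ} (h : Ch G n k a b z) (hm : m ≤ n) :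
    Ch G m k a b z := by
  obtain ⟨w, t, h1, h2, h3⟩ := h
  exact ⟨w, t, h1.mono hm, h2.mono hm, fun i hi => ⟨fun j hj => (h3 i hi).1 j (hj.trans_le hm),
    (h3 i hi).2.mono hm⟩⟩

theorem S.congr {n : ℕ} {a b a' b' : ℕ → Bool} {z z' : ℕ → ℕ} (h : S G n a b z)
    (ha : Ag n a a') (hb : Ag n b b') (hz : Ag n z z') : S G n a' b' z' := by
  rcases h with h | ⟨k, hk, h⟩
  · exact Or.inl h
  · rcases Nat.eq_zero_or_pos n with hn | hn
    · exact Or.inl hn
    · exact Or.inr ⟨k, (hz 0 hn) ▸ hk, h.congr ha hb hz⟩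

theorem S.refl (n : ℕ) (a : ℕ → Bool) (z : ℕ → ℕ) : S G n a a z :=
  Or.inr ⟨0, Nat.zero_le _, fun _ => a, fun _ => z, Ag.rfl', Ag.rfl', fun _ hi =>
    absurd hi (Nat.not_lt_zero _)⟩

theorem S.trans {n : ℕ} {a b c : ℕ → Bool} {z z' : ℕ → ℕ} (h : S G n a b z)
    (h' : S G n b c z') : S G n a c (fun j => z j + z' j) := by
  rcases h with h | ⟨k, hk, w, t, h1, h2, h3⟩
  · exact Or.inl h
  rcases h' with h' | ⟨k', hk', w', t', h1', h2', h3'⟩
  · exact Or.inl h'
  refine Or.inr ⟨k + k', Nat.add_le_add hk hk', fun i => if i < k then w i else w' (i - k),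
    fun i => if i < k then t i else t' (i - k), ?_, ?_, fun i hi => ?_⟩
  · show Ag n (if 0 < k then w 0 else w' (0 - k)) a
    split_ifs with h0
    · exact h1
    · have hk0 : k = 0 := by omega
      subst hk0
      exact (h1'.trans h2.symm).trans h1
  · show Ag n (if k + k' < k then w (k + k') else w' (k + k' - k)) c
    rw [if_neg (by omega), Nat.add_sub_cancel_left]
    exact h2'
  · show (∀ j < n, (if i < k then t i else t' (i - k)) j ≤ z j + z' j) ∧
      T G n (if i < k then w i else w' (i - k)) (if i + 1 < k then w (i + 1) else w' (i + 1 - k))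
        (if i < k then t i else t' (i - k))
    by_cases hik : i < k
    · rw [if_pos hik, if_pos hik]
      refine ⟨fun j hj => ((h3 i hik).1 j hj).trans (Nat.le_add_right _ _), ?_⟩
      by_cases hik' : i + 1 < k
      · rw [if_pos hik']
        exact (h3 i hik).2
      · rw [if_neg hik']
        have hk1 : i + 1 = k := by omega
        rw [hk1, Nat.sub_self]
        refine (h3 i hik).2.congr Ag.rfl' ?_ Ag.rfl'
        rw [hk1]
        exact h2.trans h1'.symm
    · rw [if_neg hik, if_neg hik, if_neg (by omega)]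
      have h4 := h3' (i - k) (by omega)
      refine ⟨fun j hj => (h4.1 j hj).trans (Nat.le_add_left _ _), ?_⟩
      have h5 : i + 1 - k = i - k + 1 := by omega
      rw [h5]
      exact h4.2

theorem exists_S {a b : ℕ → Bool} (h : (a, b) ∈ range G) : ∃ z, ∀ n, S G n a b z := by
  obtain ⟨ζ, hζ⟩ := h
  refine ⟨fun j => max (ζ j) 1, fun n => Or.inr ⟨1, le_max_right _ _,
    fun i => if i = 0 then a else b, fun _ => ζ, ?_, ?_, fun i hi => ?_⟩⟩
  · exact Ag.rfl'
  · exact Ag.rfl'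
  · have hi0 : i = 0 := by omega
    subst hi0
    refine ⟨fun j _ => le_max_left _ _, ζ, Ag.rfl', ?_, ?_⟩
    · rw [hζ]; exact Ag.rfl'
    · rw [hζ]; exact Ag.rfl'

theorem exists_agree {f : (ℕ → ℕ) → Bool} (hf : Continuous f) (t : ℕ → ℕ) :
    ∃ n, ∀ z', Ag n z' t → f z' = f t := by
  have h1 : f ⁻¹' {f t} ∈ 𝓝 t := (isOpen_discrete {f t}).preimage hf |>.mem_nhds rfl
  obtain ⟨s, ⟨x, n, rfl⟩, hs1, hs2⟩ :=
    (PiNat.isTopologicalBasis_cylinders (fun _ : ℕ => ℕ)).mem_nhds_iff.1 h1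
  rw [PiNat.mem_cylinder_iff] at hs1
  refine ⟨n, fun z' hz' => ?_⟩
  have : z' ∈ PiNat.cylinder x n := by
    rw [PiNat.mem_cylinder_iff]
    exact fun i hi => (hz' i hi).trans (hs1 i hi)
  exact hs2 this

theorem eq_of_T (hG : Continuous G) {a b : ℕ → Bool} {t : ℕ → ℕ} (h : ∀ n, T G n a b t) :
    G t = (a, b) := by
  refine Prod.ext (funext fun m => ?_) (funext fun m => ?_)
  · obtain ⟨n, hn⟩ := exists_agree (f := fun z => (G z).1 m)
      ((continuous_apply m).comp (continuous_fst.comp hG)) t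
    obtain ⟨z', h1, h2, -⟩ := h (max n (m + 1))
    rw [← hn z' (h1.mono (le_max_left _ _))]
    exact h2 m (lt_of_lt_of_le (Nat.lt_succ_self m) (le_max_right _ _))
  · obtain ⟨n, hn⟩ := exists_agree (f := fun z => (G z).2 m)
      ((continuous_apply m).comp (continuous_snd.comp hG)) t
    obtain ⟨z', h1, -, h2⟩ := h (max n (m + 1))
    rw [← hn z' (h1.mono (le_max_left _ _))]
    exact h2 m (lt_of_lt_of_le (Nat.lt_succ_self m) (le_max_right _ _))

theorem isOpen_ag {Y : Type} [TopologicalSpace Y] {α : Type} [TopologicalSpace α]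
    [DiscreteTopology α] {f : Y → ℕ → α} (hf : Continuous f) (n : ℕ) (y₀ : Y) :
    IsOpen {y | Ag n (f y) (f y₀)} := by
  have : {y | Ag n (f y) (f y₀)} = ⋂ i ∈ Finset.range n, {y | f y i = f y₀ i} := by
    ext y
    simp [Ag]
  rw [this]
  refine isOpen_biInter_finset fun i _ => ?_
  exact (isOpen_discrete {f y₀ i}).preimage ((continuous_apply i).comp hf)

theorem closed_T {Y : Type} [TopologicalSpace Y] {f g : Y → ℕ → Bool} {h : Y → ℕ → ℕ}
    (hf : Continuous f) (hg : Continuous g) (hh : Continuous h) (n : ℕ) :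
    IsClosed {y | T G n (f y) (g y) (h y)} := by
  rw [← isOpen_compl_iff, isOpen_iff_mem_nhds]
  intro y₀ hy₀
  filter_upwards [(isOpen_ag hf n y₀).mem_nhds Ag.rfl', (isOpen_ag hg n y₀).mem_nhds Ag.rfl',
    (isOpen_ag hh n y₀).mem_nhds Ag.rfl'] with y h1 h2 h3 h4
  exact hy₀ (T.congr h4 h1 h2 h3)

theorem closed_ag {Y : Type} [TopologicalSpace Y] {α : Type} [TopologicalSpace α]
    [DiscreteTopology α] {f : Y → ℕ → α} (hf : Continuous f) (n : ℕ) (a : ℕ → α) :
    IsClosed {y | Ag n (f y) a} := by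
  have : {y | Ag n (f y) a} = ⋂ i, ⋂ (_ : i < n), {y | f y i = a i} := by
    ext y
    simp [Ag]
  rw [this]
  refine isClosed_iInter fun i => isClosed_iInter fun _ => ?_
  exact (isClosed_discrete {a i}).preimage ((continuous_apply i).comp hf)

theorem of_Ch (hG : Continuous G) {R : (ℕ → Bool) → (ℕ → Bool) → Prop} (hR : ∀ z, R (G z).1 (G z).2)
    (hrefl : ∀ a, R a a) (htrans : ∀ a b c, R a b → R b c → R a c) {a b : ℕ → Bool} {z : ℕ → ℕ}
    {k : ℕ} (h : ∀ n, Ch G n k a b z) : R a b := by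
  let K : ℕ → Set ((ℕ → ℕ → Bool) × (ℕ → ℕ → ℕ)) := fun n =>
    {p | (∀ i j, p.2 i j ≤ z j) ∧ Ag n (p.1 0) a ∧ Ag n (p.1 k) b ∧
      ∀ i < k, T G n (p.1 i) (p.1 (i + 1)) (p.2 i)}
  have hKc : ∀ n, IsClosed (K n) := by
    intro n
    refine IsClosed.inter ?_ (IsClosed.inter ?_ (IsClosed.inter ?_ ?_))
    · have : {p : (ℕ → ℕ → Bool) × (ℕ → ℕ → ℕ) | ∀ i j, p.2 i j ≤ z j} =
          ⋂ i, ⋂ j, {p | p.2 i j ≤ z j} := by ext p; simp
      show IsClosed {p : (ℕ → ℕ → Bool) × (ℕ → ℕ → ℕ) | ∀ i j, p.2 i j ≤ z j}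
      rw [this]
      refine isClosed_iInter fun i => isClosed_iInter fun j => ?_
      exact isClosed_le ((continuous_apply j).comp ((continuous_apply i).comp continuous_snd))
        continuous_const
    · exact closed_ag ((continuous_apply 0).comp continuous_fst) n a
    · exact closed_ag ((continuous_apply k).comp continuous_fst) n b
    · have : {p : (ℕ → ℕ → Bool) × (ℕ → ℕ → ℕ) | ∀ i < k, T G n (p.1 i) (p.1 (i + 1)) (p.2 i)} =
          ⋂ i, ⋂ (_ : i < k), {p | T G n (p.1 i) (p.1 (i + 1)) (p.2 i)} := by ext p; simp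
      show IsClosed {p : (ℕ → ℕ → Bool) × (ℕ → ℕ → ℕ) |
        ∀ i < k, T G n (p.1 i) (p.1 (i + 1)) (p.2 i)}
      rw [this]
      refine isClosed_iInter fun i => isClosed_iInter fun _ => ?_
      exact closed_T ((continuous_apply i).comp continuous_fst)
        ((continuous_apply (i + 1)).comp continuous_fst)
        ((continuous_apply i).comp continuous_snd) n
  have hKn : ∀ n, (K n).Nonempty := by
    intro n
    obtain ⟨w, t, h1, h2, h3⟩ := h n
    refine ⟨(w, fun i j => if i < k ∧ j < n then t i j else 0), ?_, h1, h2, fun i hi => ?_⟩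
    · intro i j
      show (if i < k ∧ j < n then t i j else 0) ≤ z j
      split_ifs with hij
      · exact (h3 i hij.1).1 j hij.2
      · exact Nat.zero_le _
    · refine (h3 i hi).2.congr Ag.rfl' Ag.rfl' fun j hj => ?_
      show t i j = if i < k ∧ j < n then t i j else 0
      rw [if_pos ⟨hi, hj⟩]
  have hKm : ∀ n, K (n + 1) ⊆ K n := by
    rintro n p ⟨h1, h2, h3, h4⟩
    exact ⟨h1, h2.mono (Nat.le_succ n), h3.mono (Nat.le_succ n), fun i hi =>
      (h4 i hi).mono (Nat.le_succ n)⟩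
  have hK0 : IsCompact (K 0) := by
    have hc : IsCompact ((univ : Set (ℕ → ℕ → Bool)) ×ˢ
        (Set.pi univ fun _ : ℕ => Set.pi univ fun j : ℕ => Iic (z j))) := by
      refine isCompact_univ.prod (isCompact_univ_pi fun i => isCompact_univ_pi fun j => ?_)
      exact (finite_Iic (z j)).isCompact
    refine hc.of_isClosed_subset (hKc 0) ?_
    rintro p ⟨h1, -⟩
    exact ⟨trivial, fun i _ j _ => h1 i j⟩
  obtain ⟨⟨w, t⟩, hp⟩ := IsCompact.nonempty_iInter_of_sequence_nonempty_isCompact_isClosed K hKm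
    hKn hK0 hKc
  have hp' : ∀ n, (w, t) ∈ K n := fun n => mem_iInter.1 hp n
  have hwa : w 0 = a := funext fun i => (hp' (i + 1)).2.1 i (Nat.lt_succ_self i)
  have hwb : w k = b := funext fun i => (hp' (i + 1)).2.2.1 i (Nat.lt_succ_self i)
  have hst : ∀ i < k, R (w i) (w (i + 1)) := by
    intro i hi
    have h1 := eq_of_T hG (fun n => (hp' n).2.2.2 i hi)
    have h2 := hR (t i)
    rw [h1] at h2
    exact h2
  have : ∀ i, i ≤ k → R a (w i) := by
    intro i
    induction i with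
    | zero => intro _; rw [hwa]; exact hrefl a
    | succ i ih => intro hi; exact htrans _ _ _ (ih (by omega)) (hst i (by omega))
  rw [← hwb]
  exact this k le_rfl

theorem of_S (hG : Continuous G) {R : (ℕ → Bool) → (ℕ → Bool) → Prop} (hR : ∀ z, R (G z).1 (G z).2)
    (hrefl : ∀ a, R a a) (htrans : ∀ a b c, R a b → R b c → R a c) {a b : ℕ → Bool} {z : ℕ → ℕ}
    (h : ∀ n, S G n a b z) : R a b := by
  by_contra hc
  have h1 : ∀ k, ∃ n, ¬ Ch G n k a b z := by
    intro k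
    by_contra hk
    push Not at hk
    exact hc (of_Ch hG hR hrefl htrans hk)
  choose N hN using h1
  rcases h ((Finset.range (z 0 + 1)).sup N + 1) with h0 | ⟨k, hk, hC⟩
  · omega
  · refine hN k (hC.mono ?_)
    have : N k ≤ (Finset.range (z 0 + 1)).sup N := Finset.le_sup (Finset.mem_range.2 (by omega))
    omega

end Pool.Agent.D0H64.LR
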